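import Mathlib

set_option autoImplicit false

namespace Pool.Agent.TH805.DR

open Finset Polynomial Module

/-- minimal polynomials of integral linear combinations have controlled height -/
theorem nf_poly (b : ℕ) (hb : 2 ≤ b) (r : ℕ) (x : Fin r → ℝ) (hx : ∀ l, IsIntegral ℤ (x l)) :
    ∃ K₀ : ℕ, ∀ (p : Fin r → ℤ) (T : ℕ), (∀ l, |p l| ≤ (b : ℤ) ^ T) →
      ∃ P : ℤ[X], P.Monic ∧ P.natDegree ≠ 0 ∧
        P.natDegree ≤ finrank ℚ (IntermediateField.adjoin ℚ (Set.range x)) ∧
        aeval (∑ l, (p l : ℝ) * x l) P = 0 ∧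
        ∑ i ∈ range (P.natDegree + 1), (P.coeff i).natAbs ≤ b ^ (K₀ * (T + 1)) := by
  classical
  set F := IntermediateField.adjoin ℚ (Set.range x) with hF
  haveI : FiniteDimensional ℚ F := IntermediateField.finiteDimensional_adjoin fun y hy => by
    obtain ⟨l, rfl⟩ := hy
    exact (hx l).tower_top
  haveI : NumberField F := { }
  -- the elements of the field
  let y : Fin r → F := fun l => ⟨x l, IntermediateField.subset_adjoin ℚ _ ⟨l, rfl⟩⟩
  have hyint : ∀ l, IsIntegral ℤ (y l) := fun l => by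
    have : IsIntegral ℤ (algebraMap F ℝ (y l)) := hx l
    exact (isIntegral_algebraMap_iff (algebraMap F ℝ).injective).1 this
  set n := finrank ℚ F with hn
  obtain ⟨C, hC⟩ : ∃ C : ℕ, ∀ φ : F →+* ℂ, ∑ l, ‖φ (y l)‖ ≤ C := by
    obtain ⟨C, hC⟩ := exists_nat_ge (∑ φ : F →+* ℂ, ∑ l, ‖φ (y l)‖)
    refine ⟨C, fun φ => le_trans ?_ hC⟩
    exact single_le_sum (f := fun φ : F →+* ℂ => ∑ l, ‖φ (y l)‖)
      (fun φ _ => sum_nonneg fun l _ => norm_nonneg _) (mem_univ φ)
  refine ⟨n + (n + (C + 1) * n + n), ?_⟩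
  intro p T hp
  set z : F := ∑ l, (p l : F) * y l with hz
  have hzint : IsIntegral ℤ z := IsIntegral.sum _ fun l _ =>
    (isIntegral_algebraMap (R := ℤ) (A := F) (x := p l)).mul (hyint l)
  have hzreal : algebraMap F ℝ z = ∑ l, (p l : ℝ) * x l := by
    rw [hz, map_sum]
    refine sum_congr rfl fun l _ => ?_
    rw [map_mul, map_intCast]
    rfl
  have hmap : minpoly ℚ z = (minpoly ℤ z).map (algebraMap ℤ ℚ) :=
    minpoly.isIntegrallyClosed_eq_field_fractions' ℚ hzint
  have hdeg : (minpoly ℤ z).natDegree = (minpoly ℚ z).natDegree := by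
    rw [hmap, (minpoly.monic hzint).natDegree_map]
  have hdegle : (minpoly ℤ z).natDegree ≤ n := by
    rw [hdeg]; exact minpoly.natDegree_le z
  refine ⟨minpoly ℤ z, minpoly.monic hzint, ?_, hdegle, ?_, ?_⟩
  · have := minpoly.natDegree_pos hzint
    omega
  · rw [← hzreal, aeval_algebraMap_apply, minpoly.aeval, map_zero]
  · -- the height
    have hnorm : ∀ φ : F →+* ℂ, ‖φ z‖ ≤ (b : ℝ) ^ (T + C) := by
      intro φ
      rw [hz, map_sum]
      calc ‖∑ l, φ ((p l : F) * y l)‖ ≤ ∑ l, ‖φ ((p l : F) * y l)‖ := norm_sum_le _ _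
        _ ≤ ∑ l, (b : ℝ) ^ T * ‖φ (y l)‖ := by
            refine sum_le_sum fun l _ => ?_
            rw [map_mul, norm_mul, map_intCast]
            refine mul_le_mul_of_nonneg_right ?_ (norm_nonneg _)
            rw [Complex.norm_intCast]
            exact_mod_cast hp l
        _ = (b : ℝ) ^ T * ∑ l, ‖φ (y l)‖ := by rw [mul_sum]
        _ ≤ (b : ℝ) ^ T * (b : ℝ) ^ C := by
            refine mul_le_mul_of_nonneg_left ((hC φ).trans ?_) (by positivity)
            have : C ≤ b ^ C := (Nat.lt_pow_self (by omega)).le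
            exact_mod_cast this
        _ = _ := by rw [pow_add]
    have hb1 : (1 : ℝ) ≤ b := by exact_mod_cast (by omega : 1 ≤ b)
    have hcoeff : ∀ i, ((minpoly ℤ z).coeff i).natAbs ≤ b ^ ((T + C) * n + n) := by
      intro i
      have h1 := NumberField.Embeddings.coeff_bdd_of_norm_le (A := ℂ) hnorm i
      have h2 : ‖(minpoly ℚ z).coeff i‖ = ((((minpoly ℤ z).coeff i).natAbs : ℕ) : ℝ) := by
        rw [hmap, coeff_map, Nat.cast_natAbs]
        have h0 : (algebraMap ℤ ℚ) ((minpoly ℤ z).coeff i) = (((minpoly ℤ z).coeff i : ℤ) : ℚ) := rfl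
        rw [h0, ← Rat.norm_cast_real]
        simp
      rw [h2, ← hn, max_eq_left (one_le_pow₀ hb1)] at h1
      have h3 : ((n.choose (n / 2) : ℕ) : ℝ) ≤ (b : ℝ) ^ n := by
        have h4 : n.choose (n / 2) ≤ b ^ n :=
          (Nat.choose_le_two_pow _ _).trans (Nat.pow_le_pow_left hb _)
        exact_mod_cast h4
      have h5 : ((((minpoly ℤ z).coeff i).natAbs : ℕ) : ℝ) ≤ (b : ℝ) ^ ((T + C) * n + n) := by
        refine h1.trans ?_
        rw [pow_add (b : ℝ) ((T + C) * n) n, pow_mul (b : ℝ) (T + C) n]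
        exact mul_le_mul_of_nonneg_left h3 (by positivity)
      exact_mod_cast h5
    calc ∑ i ∈ range ((minpoly ℤ z).natDegree + 1), ((minpoly ℤ z).coeff i).natAbs
        ≤ ∑ i ∈ range ((minpoly ℤ z).natDegree + 1), b ^ ((T + C) * n + n) :=
          sum_le_sum fun i _ => hcoeff i
      _ = ((minpoly ℤ z).natDegree + 1) * b ^ ((T + C) * n + n) := by
          rw [sum_const, card_range, smul_eq_mul]
      _ ≤ b ^ n * b ^ ((T + C) * n + n) := by
          refine Nat.mul_le_mul_right _ ?_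
          have : n < b ^ n := Nat.lt_pow_self (by omega)
          omega
      _ = b ^ (n + ((T + C) * n + n)) := by rw [← pow_add]
      _ ≤ _ := Nat.pow_le_pow_right (by omega) (by nlinarith [Nat.zero_le (n * T), Nat.zero_le (n * C * T), Nat.zero_le (C * T)])

end Pool.Agent.TH805.DR
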