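import Pool.Agent.TH805.DR.Per2
import Pool.Agent.TH805.DR.NF

set_option autoImplicit false

namespace Pool.Agent.TH805.DR

open Finset Polynomial Module

lemma geom_lt (b : ℕ) (hb : 2 ≤ b) (J : ℕ) : ∑ j : Fin J, b ^ (j : ℕ) ≤ b ^ J := by
  induction J with
  | zero => simp
  | succ J ih =>
    rw [Fin.sum_univ_castSucc]
    simp only [Fin.val_castSucc, Fin.val_last]
    calc ∑ j : Fin J, b ^ (j : ℕ) + b ^ J ≤ b ^ J + b ^ J := Nat.add_le_add_right ih _
      _ = b ^ J * 2 := by ring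
      _ ≤ b ^ J * b := Nat.mul_le_mul_left _ hb
      _ = b ^ (J + 1) := (pow_succ _ _).symm

/-- relations between the digits of several algebraic integers, uniformly in the order and the
height of the relation and in the period -/
theorem urel (b : ℕ) (hb : 2 ≤ b) (r : ℕ) (x : Fin r → ℝ) (hx : ∀ l, IsIntegral ℤ (x l)) :
    ∃ K : ℕ, ∀ (J L m s : ℕ) (q : Fin r → Fin J → ℤ) (e : ℕ → ℤ), 1 ≤ s →
      (∀ l j, |q l j| ≤ (b : ℤ) ^ L) → (∀ k, |e k| ≤ (b : ℤ) ^ L) →
      (∀ k, m < k → e (k + s) = e k) →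
      ¬ ((b : ℤ) ^ s - 1) ∣ ∑ i ∈ range s, e (m + 1 + i) * (b : ℤ) ^ (s - 1 - i) →
      ∀ N : ℕ, N ≤ K * (J + L + m + s) *
        (hdist (fun k => ∑ l, ∑ j, q l j * digit b (x l) (k + j)) e N + 1) ^
          finrank ℚ (IntermediateField.adjoin ℚ (Set.range x)) := by
  obtain ⟨K₀, hK₀⟩ := nf_poly b hb r x hx
  set n := finrank ℚ (IntermediateField.adjoin ℚ (Set.range x)) with hn
  refine ⟨20 * (n + 1) * (K₀ + r + 3), ?_⟩
  intro J L m s q e hs hq he hper hE N
  set g : ℕ → ℤ := fun k => ∑ l, ∑ j, q l j * digit b (x l) (k + j) with hg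
  have hb1 : (1 : ℤ) ≤ b := by exact_mod_cast (by omega : 1 ≤ b)
  obtain ⟨P, hPm, hP0, hPn, hPx, hPh⟩ := hK₀ (fun l => ∑ j : Fin J, q l j * (b : ℤ) ^ (j : ℕ))
    (L + J) (by
      intro l
      refine (abs_sum_le_sum_abs _ _).trans ?_
      calc ∑ j : Fin J, |q l j * (b : ℤ) ^ (j : ℕ)| ≤ ∑ j : Fin J, (b : ℤ) ^ L * (b : ℤ) ^ (j : ℕ) := by
            refine sum_le_sum fun j _ => ?_
            rw [abs_mul, abs_of_nonneg (by positivity : (0 : ℤ) ≤ (b : ℤ) ^ (j : ℕ))]
            exact mul_le_mul_of_nonneg_right (hq l j) (by positivity)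
        _ = (b : ℤ) ^ L * ∑ j : Fin J, (b : ℤ) ^ (j : ℕ) := by rw [mul_sum]
        _ ≤ (b : ℤ) ^ L * (b : ℤ) ^ J := by
            refine mul_le_mul_of_nonneg_left ?_ (by positivity)
            exact_mod_cast geom_lt b hb J
        _ = _ := by rw [pow_add])
  set y : ℝ := ∑ l, ((∑ j : Fin J, q l j * (b : ℤ) ^ (j : ℕ) : ℤ) : ℝ) * x l with hy
  set L' := K₀ * (L + J + 1) + (r + J + L + 1) with hL'
  have hgy : Expands b g y := by
    have hy2 : y = ∑ l, ∑ j : Fin J, (q l j : ℝ) * ((b : ℝ) ^ (j : ℕ) * x l) := by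
      rw [hy]
      refine sum_congr rfl fun l _ => ?_
      push_cast
      rw [sum_mul]
      exact sum_congr rfl fun j _ => by ring
    rw [hy2]
    refine Expands.sum univ fun l _ => Expands.sum univ fun j _ => ?_
    have h1 : (fun k => q l j * digit b (x l) (k + j)) =
        fun k => q l j * digit b ((b : ℝ) ^ (j : ℕ) * x l) k := by
      funext k
      rw [digit_shift]
    rw [h1]
    exact (digit_expands b hb _).const_mul _
  have hgb : ∀ k, |g k| ≤ (b : ℤ) ^ L' := by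
    intro k
    rw [hg]
    simp only []
    calc |∑ l, ∑ j, q l j * digit b (x l) (k + j)|
        ≤ ∑ l, |∑ j, q l j * digit b (x l) (k + j)| := abs_sum_le_sum_abs _ _
      _ ≤ ∑ l : Fin r, ∑ j : Fin J, (b : ℤ) ^ L * b := by
          refine sum_le_sum fun l _ => (abs_sum_le_sum_abs _ _).trans (sum_le_sum fun j _ => ?_)
          rw [abs_mul, abs_of_nonneg (digit_nonneg b hb _ _)]
          exact mul_le_mul (hq l j) (digit_lt b hb _ _).le (digit_nonneg b hb _ _) (by positivity)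
      _ = (r : ℤ) * J * ((b : ℤ) ^ L * b) := by
          simp [sum_const, card_univ]
          ring
      _ ≤ (b : ℤ) ^ r * (b : ℤ) ^ J * ((b : ℤ) ^ L * b) := by
          have h1 : (r : ℤ) ≤ (b : ℤ) ^ r := by
            exact_mod_cast (Nat.lt_pow_self (by omega : 1 < b)).le
          have h2 : (J : ℤ) ≤ (b : ℤ) ^ J := by
            exact_mod_cast (Nat.lt_pow_self (by omega : 1 < b)).le
          gcongr
      _ = (b : ℤ) ^ (r + J + L + 1) := by rw [pow_add, pow_add, pow_add, pow_one]; ring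
      _ ≤ _ := pow_le_pow_right₀ hb1 (by omega)
  have hmain := uper P hP0 y hPx b hb L' (hPh.trans (Nat.pow_le_pow_right (by omega) (by omega)))
    m s e g hs (fun k => (he k).trans (pow_le_pow_right₀ hb1 (by
      rw [hL']
      have : 0 ≤ K₀ * (L + J + 1) := Nat.zero_le _
      omega))) hper (by
      rw [hPm.leadingCoeff, one_mul]
      exact hE) hgb hgy N
  refine hmain.trans ?_
  have h1 : (hdist g e N + 1) ^ P.natDegree ≤ (hdist g e N + 1) ^ n :=
    Nat.pow_le_pow_right (Nat.succ_pos _) hPn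
  refine Nat.mul_le_mul ?_ h1
  calc 20 * (P.natDegree + 1) * (m + s + L' + 1) ≤ 20 * (n + 1) * (m + s + L' + 1) := by
        gcongr
    _ ≤ 20 * (n + 1) * ((K₀ + r + 3) * (J + L + m + s)) := by
        refine Nat.mul_le_mul_left _ ?_
        obtain ⟨s', rfl⟩ : ∃ s', s = s' + 1 := ⟨s - 1, by omega⟩
        rw [hL']
        nlinarith [Nat.zero_le (K₀ * m), Nat.zero_le (K₀ * s'), Nat.zero_le (r * J),
          Nat.zero_le (r * L), Nat.zero_le (r * m), Nat.zero_le (r * s')]
    _ = _ := by ring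

end Pool.Agent.TH805.DR
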