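import Mathlib

set_option autoImplicit false

namespace Pool.Agent.TH805.DR

open Finset
open scoped ENNReal

/-- submultiplicative weights -/
structure SubW (w : ℕ → ℝ≥0∞) : Prop where
  zero : w 0 ≤ 1
  mul : ∀ k l, w (k + l) ≤ w k * w l

/-- the weighted absolute sum of the coefficients of a power series -/
noncomputable def asum (w : ℕ → ℝ≥0∞) (F : PowerSeries ℤ) : ℝ≥0∞ :=
  ∑' m : ℕ, ((PowerSeries.coeff m F).natAbs : ℝ≥0∞) * w m

lemma tsum_antidiagonal (f : ℕ × ℕ → ℝ≥0∞) :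
    ∑' m : ℕ, ∑ p ∈ antidiagonal m, f p = ∑' p : ℕ × ℕ, f p := by
  have h := (Finset.HasAntidiagonal.sigmaAntidiagonalEquivProd (A := ℕ)).tsum_eq f
  rw [← h, ENNReal.tsum_sigma']
  refine tsum_congr fun m => ?_
  rw [tsum_fintype, ← Finset.sum_coe_sort]
  rfl

lemma asum_mul (w : ℕ → ℝ≥0∞) (hw : SubW w) (F G : PowerSeries ℤ) :
    asum w (F * G) ≤ asum w F * asum w G := by
  have h1 : asum w F * asum w G = ∑' p : ℕ × ℕ,
      (((PowerSeries.coeff p.1 F).natAbs : ℝ≥0∞) * w p.1) *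
        (((PowerSeries.coeff p.2 G).natAbs : ℝ≥0∞) * w p.2) := by
    rw [ENNReal.tsum_prod (f := fun a b => (((PowerSeries.coeff a F).natAbs : ℝ≥0∞) * w a) *
        (((PowerSeries.coeff b G).natAbs : ℝ≥0∞) * w b))]
    unfold asum
    rw [← ENNReal.tsum_mul_right]
    refine tsum_congr fun a => ?_
    rw [ENNReal.tsum_mul_left]
  rw [h1, ← tsum_antidiagonal]
  unfold asum
  refine ENNReal.tsum_le_tsum fun m => ?_
  have h2 : ((PowerSeries.coeff m (F * G)).natAbs : ℝ≥0∞) ≤
      ∑ p ∈ antidiagonal m, ((PowerSeries.coeff p.1 F).natAbs : ℝ≥0∞) *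
        ((PowerSeries.coeff p.2 G).natAbs : ℝ≥0∞) := by
    rw [PowerSeries.coeff_mul]
    have := Int.natAbs_sum_le (antidiagonal m)
      (fun p : ℕ × ℕ => PowerSeries.coeff p.1 F * PowerSeries.coeff p.2 G)
    calc (((∑ p ∈ antidiagonal m, PowerSeries.coeff p.1 F * PowerSeries.coeff p.2 G).natAbs : ℕ) : ℝ≥0∞)
        ≤ ((∑ p ∈ antidiagonal m, (PowerSeries.coeff p.1 F * PowerSeries.coeff p.2 G).natAbs : ℕ) : ℝ≥0∞) := by
          exact_mod_cast this
      _ = _ := by
          push_cast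
          refine sum_congr rfl fun p _ => ?_
          rw [Int.natAbs_mul]
          push_cast
          rfl
  calc _ ≤ (∑ p ∈ antidiagonal m, ((PowerSeries.coeff p.1 F).natAbs : ℝ≥0∞) *
        ((PowerSeries.coeff p.2 G).natAbs : ℝ≥0∞)) * w m := mul_le_mul_left h2 _
    _ = ∑ p ∈ antidiagonal m, ((PowerSeries.coeff p.1 F).natAbs : ℝ≥0∞) *
        ((PowerSeries.coeff p.2 G).natAbs : ℝ≥0∞) * w m := by rw [sum_mul]
    _ ≤ _ := by
        refine sum_le_sum fun p hp => ?_
        have hm : p.1 + p.2 = m := mem_antidiagonal.1 hp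
        have := hw.mul p.1 p.2
        rw [hm] at this
        calc _ ≤ ((PowerSeries.coeff p.1 F).natAbs : ℝ≥0∞) *
            ((PowerSeries.coeff p.2 G).natAbs : ℝ≥0∞) * (w p.1 * w p.2) := mul_le_mul_right this _
          _ = _ := by ring

lemma asum_one (w : ℕ → ℝ≥0∞) (hw : SubW w) : asum w 1 ≤ 1 := by
  unfold asum
  rw [tsum_eq_single 0]
  · simpa using hw.zero
  · intro m hm
    rw [PowerSeries.coeff_one, if_neg hm]
    simp

lemma asum_pow (w : ℕ → ℝ≥0∞) (hw : SubW w) (F : PowerSeries ℤ) (j : ℕ) :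
    asum w (F ^ j) ≤ asum w F ^ j := by
  induction j with
  | zero => simpa using asum_one w hw
  | succ j ih =>
    rw [pow_succ, pow_succ]
    exact (asum_mul w hw _ _).trans (mul_le_mul_left ih _)

/-- powers of a convergent power series -/
lemma pow_series (β : ℝ) (F : PowerSeries ℤ)
    (hF : Summable fun m : ℕ => ‖((PowerSeries.coeff m F : ℤ) : ℝ) * β ^ m‖) (j : ℕ) :
    (Summable fun m : ℕ => ‖((PowerSeries.coeff m (F ^ j) : ℤ) : ℝ) * β ^ m‖) ∧
      ∑' m : ℕ, ((PowerSeries.coeff m (F ^ j) : ℤ) : ℝ) * β ^ m =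
        (∑' m : ℕ, ((PowerSeries.coeff m F : ℤ) : ℝ) * β ^ m) ^ j := by
  induction j with
  | zero =>
    have h0 : ∀ m : ℕ, m ≠ 0 → ((PowerSeries.coeff m (F ^ 0) : ℤ) : ℝ) * β ^ m = 0 := by
      intro m hm
      rw [pow_zero, PowerSeries.coeff_one, if_neg hm]
      simp
    constructor
    · refine summable_of_ne_finset_zero (s := {0}) fun m hm => ?_
      rw [h0 m (by simpa using hm), norm_zero]
    · rw [tsum_eq_single 0 h0]
      simp
  | succ j ih =>
    obtain ⟨ih1, ih2⟩ := ih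
    have hc : ∀ m : ℕ, ((PowerSeries.coeff m (F ^ (j + 1)) : ℤ) : ℝ) * β ^ m =
        ∑ kl ∈ antidiagonal m, (((PowerSeries.coeff kl.1 (F ^ j) : ℤ) : ℝ) * β ^ kl.1) *
          (((PowerSeries.coeff kl.2 F : ℤ) : ℝ) * β ^ kl.2) := by
      intro m
      rw [pow_succ, PowerSeries.coeff_mul]
      push_cast
      rw [sum_mul]
      refine sum_congr rfl fun kl hkl => ?_
      rw [← mem_antidiagonal.1 hkl, pow_add]
      ring
    constructor
    · have := summable_norm_sum_mul_antidiagonal_of_summable_norm ih1 hF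
      refine this.congr fun m => ?_
      rw [hc m]
    · have h2 := tsum_mul_tsum_eq_tsum_sum_antidiagonal_of_summable_norm ih1 hF
      rw [tsum_congr hc, ← h2, ih2, ← pow_succ]

/-- the support of the powers -/
lemma supp_pow (F : PowerSeries ℤ) (S : Finset ℕ) (N : ℕ) (h0 : 0 ∈ S)
    (hS : ∀ m, m ≤ N → PowerSeries.coeff m F ≠ 0 → m ∈ S) :
    ∀ D : ℕ, ∃ G : Finset ℕ, G.card ≤ S.card ^ D ∧ 0 ∈ G ∧
      ∀ j, j ≤ D → ∀ m, m ≤ N → PowerSeries.coeff m (F ^ j) ≠ 0 → m ∈ G := by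
  intro D
  induction D with
  | zero =>
    refine ⟨{0}, by simp, by simp, ?_⟩
    intro j hj m _ hm
    have : j = 0 := by omega
    subst this
    rw [pow_zero, PowerSeries.coeff_one] at hm
    simp only [ne_eq, ite_eq_right_iff, one_ne_zero, imp_false, not_not] at hm
    simp [hm]
  | succ D ih =>
    obtain ⟨G, hG1, hG2, hG3⟩ := ih
    refine ⟨(G ×ˢ S).image (fun p => p.1 + p.2), ?_, ?_, ?_⟩
    · refine card_image_le.trans ?_
      rw [card_product, pow_succ]
      exact Nat.mul_le_mul_right _ hG1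
    · rw [mem_image]
      exact ⟨(0, 0), by simp [hG2, h0], rfl⟩
    · intro j hj m hmN hm
      rcases Nat.lt_or_ge j (D + 1) with hjD | hjD
      · have := hG3 j (by omega) m hmN hm
        rw [mem_image]
        exact ⟨(m, 0), by simp [this, h0], rfl⟩
      · have : j = D + 1 := by omega
        subst this
        rw [pow_succ, PowerSeries.coeff_mul] at hm
        obtain ⟨p, hp, hne⟩ := exists_ne_zero_of_sum_ne_zero hm
        have hpm := mem_antidiagonal.1 hp
        rw [mem_image]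
        refine ⟨p, ?_, hpm⟩
        rw [mem_product]
        exact ⟨hG3 D le_rfl p.1 (by omega) (left_ne_zero_of_mul hne),
          hS p.2 (by omega) (right_ne_zero_of_mul hne)⟩

end Pool.Agent.TH805.DR
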