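import Pool.Agent.TH805.DR.Upper

set_option autoImplicit false

namespace Pool.Agent.TH805.DR

open Finset
open scoped ENNReal

namespace Dat

variable (d : Dat)

lemma supp_t (N : ℕ) : ∃ E : Finset ℕ, E.card ≤ (d.M N + 1) ^ d.D ∧
    ∀ m, m ≤ N → d.t m ≠ 0 → m ∈ E := by
  obtain ⟨G, hG1, _, hG3⟩ := supp_pow d.F (insert 0 ((Icc 1 N).filter fun m => d.C m ≠ 0)) N
    (mem_insert_self _ _) (by
      intro m hm hne
      rw [coeff_F] at hne
      rw [mem_insert, mem_filter, mem_Icc]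
      rcases Nat.eq_zero_or_pos m with h | h
      · exact Or.inl h
      · exact Or.inr ⟨⟨h, hm⟩, hne⟩) d.D
  refine ⟨G, hG1.trans (Nat.pow_le_pow_left (card_insert_le _ _) _), ?_⟩
  intro m hm hne
  unfold t at hne
  obtain ⟨j, hj, hne'⟩ := exists_ne_zero_of_sum_ne_zero hne
  rw [mem_Icc] at hj
  exact hG3 j hj.2 m hm (right_ne_zero_of_mul hne')

/-- the main inequality -/
theorem core (v : ℤ) (μ : ℕ) (K : ℕ) (hR : ∀ j, 1 ≤ j → v ∣ d.R j)
    (hR0 : ∀ i : ℕ, ¬ v ∣ (d.b : ℤ) ^ i * d.R 0)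
    (hK : ∀ j, 1 ≤ j → j ≤ d.D → (d.R j).natAbs ≤ K * d.b ^ μ) (hB : 1 ≤ d.B) (N : ℕ) :
    N + 1 ≤ μ + μ * (d.M N + 1) ^ d.D + 2 * d.D * K * d.B ^ d.D * (d.M N + 1) ^ d.D := by
  classical
  obtain ⟨E, hE1, hE2⟩ := d.supp_t N
  set G := (range (N + 1)).filter (fun n => μ ≤ n ∧ ∀ m, n < m + μ → m ≤ n → d.t m = 0) with hG
  -- the bad places
  have hbad : (range (N + 1)).card ≤ G.card + (μ + μ * (d.M N + 1) ^ d.D) := by
    have hsub : range (N + 1) ⊆ G ∪ (range μ ∪ E.biUnion fun m => Ico m (m + μ)) := by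
      intro n hn
      rw [mem_union, mem_union, mem_range, mem_biUnion]
      by_cases h1 : n < μ
      · exact Or.inr (Or.inl h1)
      by_cases h2 : ∀ m, n < m + μ → m ≤ n → d.t m = 0
      · left
        rw [hG, mem_filter]
        exact ⟨hn, by omega, h2⟩
      · right; right
        push Not at h2
        obtain ⟨m, hm1, hm2, hm3⟩ := h2
        rw [mem_range] at hn
        exact ⟨m, hE2 m (by omega) hm3, by rw [mem_Ico]; omega⟩
    refine (card_le_card hsub).trans ((card_union_le _ _).trans ?_)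
    refine Nat.add_le_add_left ((card_union_le _ _).trans ?_) _
    rw [card_range]
    refine Nat.add_le_add_left (card_biUnion_le.trans ?_) _
    calc ∑ m ∈ E, (Ico m (m + μ)).card = ∑ m ∈ E, μ := by
          refine sum_congr rfl fun m _ => by simp
      _ = E.card * μ := by rw [sum_const, smul_eq_mul]
      _ ≤ (d.M N + 1) ^ d.D * μ := Nat.mul_le_mul_right _ hE1
      _ = _ := mul_comm _ _
  rw [card_range] at hbad
  -- the good places
  have hgood : ((G.card * d.b ^ μ : ℕ) : ℝ≥0∞) ≤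
      ((2 * d.D * K * d.B ^ d.D * (d.M N + 1) ^ d.D * d.b ^ μ : ℕ) : ℝ≥0∞) := by
    have h1 : ((G.card * d.b ^ μ : ℕ) : ℝ≥0∞) ≤ ∑ n ∈ range (N + 1), ‖d.T n‖ₑ := by
      calc ((G.card * d.b ^ μ : ℕ) : ℝ≥0∞) = ∑ n ∈ G, ((d.b ^ μ : ℕ) : ℝ≥0∞) := by
            rw [sum_const, nsmul_eq_mul]; push_cast; rfl
        _ ≤ ∑ n ∈ G, ‖d.T n‖ₑ := by
            refine sum_le_sum fun n hn => ?_
            rw [hG, mem_filter] at hn
            have := d.T_large v μ hR hR0 n hn.2.1 hn.2.2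
            rw [← ofReal_norm, Real.norm_eq_abs]
            rw [← ENNReal.ofReal_natCast]
            apply ENNReal.ofReal_le_ofReal
            push_cast
            exact this
        _ ≤ _ := sum_le_sum_of_subset (filter_subset _ _)
    refine h1.trans ((d.sum_T_le N).trans ?_)
    have h2 : ∑ j ∈ Icc 1 d.D, ((d.R j).natAbs : ℝ≥0∞) * (asum (d.w N) d.F) ^ j ≤
        ∑ j ∈ Icc 1 d.D, ((K * d.b ^ μ * (d.B * (d.M N + 1)) ^ d.D : ℕ) : ℝ≥0∞) := by
      refine sum_le_sum fun j hj => ?_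
      rw [mem_Icc] at hj
      have h3 : (asum (d.w N) d.F) ^ j ≤ (((d.B * (d.M N + 1)) ^ d.D : ℕ) : ℝ≥0∞) := by
        calc (asum (d.w N) d.F) ^ j ≤ ((d.B : ℝ≥0∞) * ((d.M N : ℝ≥0∞) + 1)) ^ j :=
              pow_le_pow_left' (d.asum_F_le N) _
          _ = (((d.B * (d.M N + 1)) ^ j : ℕ) : ℝ≥0∞) := by push_cast; rfl
          _ ≤ _ := by
              exact_mod_cast Nat.pow_le_pow_right (Nat.mul_pos hB (Nat.succ_pos _)) hj.2
      calc ((d.R j).natAbs : ℝ≥0∞) * (asum (d.w N) d.F) ^ j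
          ≤ ((K * d.b ^ μ : ℕ) : ℝ≥0∞) * (((d.B * (d.M N + 1)) ^ d.D : ℕ) : ℝ≥0∞) := by
            refine mul_le_mul' ?_ h3
            exact_mod_cast hK j hj.1 hj.2
        _ = _ := by push_cast; rfl
    calc 2 * ∑ j ∈ Icc 1 d.D, ((d.R j).natAbs : ℝ≥0∞) * (asum (d.w N) d.F) ^ j
        ≤ 2 * ∑ j ∈ Icc 1 d.D, ((K * d.b ^ μ * (d.B * (d.M N + 1)) ^ d.D : ℕ) : ℝ≥0∞) :=
          mul_le_mul_right h2 2
      _ = _ := by
          rw [sum_const, Nat.card_Icc, nsmul_eq_mul, Nat.add_sub_cancel]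
          push_cast
          rw [mul_pow]
          ring
  have hgood' : G.card * d.b ^ μ ≤ 2 * d.D * K * d.B ^ d.D * (d.M N + 1) ^ d.D * d.b ^ μ := by
    exact_mod_cast hgood
  have hbpos : 0 < d.b ^ μ := pow_pos (by have := d.hb; omega) _
  have hfin := Nat.le_of_mul_le_mul_right hgood' hbpos
  omega

end Dat

end Pool.Agent.TH805.DR
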