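import Pool.Agent.TH805.DR.Digits

set_option autoImplicit false

namespace Pool.Agent.TH805.DR

open Finset Polynomial
open scoped ENNReal

namespace Dat

variable (d : Dat)

/-- the main inequality, with all heights in the exponent -/
theorem core2 (v : ℤ) (μ : ℕ) (hR : ∀ j, 1 ≤ j → v ∣ d.R j)
    (hR0 : ∀ i : ℕ, ¬ v ∣ (d.b : ℤ) ^ i * d.R 0)
    (hK : ∀ j, 1 ≤ j → j ≤ d.D → (d.R j).natAbs * d.B ^ d.D ≤ d.b ^ μ) (hB : 1 ≤ d.B) (N : ℕ) :
    N + 1 ≤ μ + μ * (d.M N + 1) ^ d.D + 2 * d.D * (d.M N + 1) ^ d.D := by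
  classical
  obtain ⟨E, hE1, hE2⟩ := d.supp_t N
  set G := (range (N + 1)).filter (fun n => μ ≤ n ∧ ∀ m, n < m + μ → m ≤ n → d.t m = 0) with hG
  -- the bad places
  have hbad : (range (N + 1)).card ≤ G.card + (μ + μ * (d.M N + 1) ^ d.D) := by
    have hsub : range (N + 1) ⊆ G ∪ (range μ ∪ E.biUnion fun m => Ico m (m + μ)) := by
      intro n hn
      rw [mem_union, mem_union, mem_range, mem_biUnion]
      by_cases h1 : n < μ
      · exact Or.inr (Or.inl h1)
      by_cases h2 : ∀ m, n < m + μ → m ≤ n → d.t m = 0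
      · left
        rw [hG, mem_filter]
        exact ⟨hn, by omega, h2⟩
      · right; right
        push Not at h2
        obtain ⟨m, hm1, hm2, hm3⟩ := h2
        rw [mem_range] at hn
        exact ⟨m, hE2 m (by omega) hm3, by rw [mem_Ico]; omega⟩
    refine (card_le_card hsub).trans ((card_union_le _ _).trans ?_)
    refine Nat.add_le_add_left ((card_union_le _ _).trans ?_) _
    rw [card_range]
    refine Nat.add_le_add_left (card_biUnion_le.trans ?_) _
    calc ∑ m ∈ E, (Ico m (m + μ)).card = ∑ m ∈ E, μ := by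
          refine sum_congr rfl fun m _ => by simp
      _ = E.card * μ := by rw [sum_const, smul_eq_mul]
      _ ≤ (d.M N + 1) ^ d.D * μ := Nat.mul_le_mul_right _ hE1
      _ = _ := mul_comm _ _
  rw [card_range] at hbad
  -- the good places
  have hgood : ((G.card * d.b ^ μ : ℕ) : ℝ≥0∞) ≤
      ((2 * d.D * (d.M N + 1) ^ d.D * d.b ^ μ : ℕ) : ℝ≥0∞) := by
    have h1 : ((G.card * d.b ^ μ : ℕ) : ℝ≥0∞) ≤ ∑ n ∈ range (N + 1), ‖d.T n‖ₑ := by
      calc ((G.card * d.b ^ μ : ℕ) : ℝ≥0∞) = ∑ n ∈ G, ((d.b ^ μ : ℕ) : ℝ≥0∞) := by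
            rw [sum_const, nsmul_eq_mul]; push_cast; rfl
        _ ≤ ∑ n ∈ G, ‖d.T n‖ₑ := by
            refine sum_le_sum fun n hn => ?_
            rw [hG, mem_filter] at hn
            have := d.T_large v μ hR hR0 n hn.2.1 hn.2.2
            rw [← ofReal_norm, Real.norm_eq_abs]
            rw [← ENNReal.ofReal_natCast]
            apply ENNReal.ofReal_le_ofReal
            push_cast
            exact this
        _ ≤ _ := sum_le_sum_of_subset (filter_subset _ _)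
    refine h1.trans ((d.sum_T_le N).trans ?_)
    have h2 : ∑ j ∈ Icc 1 d.D, ((d.R j).natAbs : ℝ≥0∞) * (asum (d.w N) d.F) ^ j ≤
        ∑ j ∈ Icc 1 d.D, ((d.b ^ μ * (d.M N + 1) ^ d.D : ℕ) : ℝ≥0∞) := by
      refine sum_le_sum fun j hj => ?_
      rw [mem_Icc] at hj
      have h3 : (asum (d.w N) d.F) ^ j ≤ (((d.B * (d.M N + 1)) ^ d.D : ℕ) : ℝ≥0∞) := by
        calc (asum (d.w N) d.F) ^ j ≤ ((d.B : ℝ≥0∞) * ((d.M N : ℝ≥0∞) + 1)) ^ j :=
              pow_le_pow_left' (d.asum_F_le N) _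
          _ = (((d.B * (d.M N + 1)) ^ j : ℕ) : ℝ≥0∞) := by push_cast; rfl
          _ ≤ _ := by
              exact_mod_cast Nat.pow_le_pow_right (Nat.mul_pos hB (Nat.succ_pos _)) hj.2
      calc ((d.R j).natAbs : ℝ≥0∞) * (asum (d.w N) d.F) ^ j
          ≤ ((d.R j).natAbs : ℝ≥0∞) * (((d.B * (d.M N + 1)) ^ d.D : ℕ) : ℝ≥0∞) :=
            mul_le_mul' le_rfl h3
        _ = (((d.R j).natAbs * d.B ^ d.D * (d.M N + 1) ^ d.D : ℕ) : ℝ≥0∞) := by
            push_cast; rw [mul_pow]; ring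
        _ ≤ _ := by
            exact_mod_cast Nat.mul_le_mul_right _ (hK j hj.1 hj.2)
    calc 2 * ∑ j ∈ Icc 1 d.D, ((d.R j).natAbs : ℝ≥0∞) * (asum (d.w N) d.F) ^ j
        ≤ 2 * ∑ j ∈ Icc 1 d.D, ((d.b ^ μ * (d.M N + 1) ^ d.D : ℕ) : ℝ≥0∞) :=
          mul_le_mul_right h2 2
      _ = _ := by
          rw [sum_const, Nat.card_Icc, nsmul_eq_mul, Nat.add_sub_cancel]
          push_cast
          ring
  have hgood' : G.card * d.b ^ μ ≤ 2 * d.D * (d.M N + 1) ^ d.D * d.b ^ μ := by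
    exact_mod_cast hgood
  have hbpos : 0 < d.b ^ μ := pow_pos (by have := d.hb; omega) _
  have hfin := Nat.le_of_mul_le_mul_right hgood' hbpos
  omega

end Dat

/-- a bound for the roots -/
lemma root_bound (P : ℤ[X]) (hP : P.leadingCoeff ≠ 0) (hD : P.natDegree ≠ 0) (ξ : ℝ)
    (hξ : aeval ξ P = 0) :
    |ξ| ≤ ((∑ i ∈ range (P.natDegree + 1), (P.coeff i).natAbs : ℕ) : ℝ) := by
  obtain ⟨n, hn⟩ : ∃ n, P.natDegree = n + 1 := ⟨P.natDegree - 1, by omega⟩
  set A := ∑ i ∈ range (P.natDegree + 1), (P.coeff i).natAbs with hA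
  have hlead : 1 ≤ (P.coeff (n + 1)).natAbs := by
    rw [leadingCoeff, hn] at hP
    exact Int.natAbs_pos.2 hP
  have hA1 : (1 : ℝ) ≤ A := by
    have : 1 ≤ A := by
      rw [hA, hn]
      exact hlead.trans (single_le_sum (f := fun i => (P.coeff i).natAbs)
        (fun i _ => Nat.zero_le _) (mem_range.2 (by omega : n + 1 < n + 1 + 1)))
    exact_mod_cast this
  by_cases h1 : |ξ| ≤ 1
  · exact h1.trans hA1
  push Not at h1
  have hx0 : 0 < |ξ| := by linarith
  have heq : (P.coeff (n + 1) : ℝ) * ξ ^ (n + 1) = - ∑ i ∈ range (n + 1), (P.coeff i : ℝ) * ξ ^ i := by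
    rw [aeval_eq_sum_range, hn, sum_range_succ] at hξ
    simp only [zsmul_eq_mul] at hξ
    linarith
  have habs : ∀ z : ℤ, |(z : ℝ)| = ((z.natAbs : ℕ) : ℝ) := fun z => by
    rw [Nat.cast_natAbs]; push_cast; rfl
  have h2 : |ξ| ^ (n + 1) ≤ (A : ℝ) * |ξ| ^ n := by
    calc |ξ| ^ (n + 1) ≤ |(P.coeff (n + 1) : ℝ)| * |ξ| ^ (n + 1) := by
          rw [habs]
          exact le_mul_of_one_le_left (by positivity) (by exact_mod_cast hlead)
      _ = |(P.coeff (n + 1) : ℝ) * ξ ^ (n + 1)| := by rw [abs_mul, abs_pow]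
      _ = |∑ i ∈ range (n + 1), (P.coeff i : ℝ) * ξ ^ i| := by rw [heq, abs_neg]
      _ ≤ ∑ i ∈ range (n + 1), |(P.coeff i : ℝ) * ξ ^ i| := abs_sum_le_sum_abs _ _
      _ ≤ ∑ i ∈ range (n + 1), (((P.coeff i).natAbs : ℕ) : ℝ) * |ξ| ^ n := by
          refine sum_le_sum fun i hi => ?_
          rw [mem_range] at hi
          rw [abs_mul, abs_pow, habs]
          exact mul_le_mul_of_nonneg_left (pow_le_pow_right₀ h1.le (by omega)) (by positivity)
      _ = ((∑ i ∈ range (n + 1), (P.coeff i).natAbs : ℕ) : ℝ) * |ξ| ^ n := by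
          rw [← sum_mul]; push_cast; rfl
      _ ≤ _ := by
          refine mul_le_mul_of_nonneg_right ?_ (by positivity)
          have : ∑ i ∈ range (n + 1), (P.coeff i).natAbs ≤ A := by
            rw [hA, hn]
            exact sum_le_sum_of_subset (range_subset_range.2 (by omega))
          exact_mod_cast this
  rw [pow_succ] at h2
  have h3 : |ξ| ^ n * |ξ| ≤ |ξ| ^ n * A := by linarith
  exact le_of_mul_le_mul_left h3 (by positivity)

/-- The core theorem for expansions, with explicit constants. -/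
theorem uexp (P : ℤ[X]) (hD : P.natDegree ≠ 0) (ξ : ℝ) (hξ : aeval ξ P = 0) (b : ℕ)
    (hb : 2 ≤ b) (L : ℕ) (hL : ∑ i ∈ range (P.natDegree + 1), (P.coeff i).natAbs ≤ b ^ L)
    (m v : ℕ) (u : ℤ) (hv : 1 ≤ v) (hvb : IsCoprime (v : ℤ) b)
    (hvu : IsCoprime (v : ℤ) u) (hP : ¬ (v : ℤ) ∣ P.leadingCoeff) (C : ℕ → ℤ) (hC0 : C 0 = 0)
    (hCB : ∀ k, (C k).natAbs ≤ b ^ L)
    (hsum : ∑' k : ℕ, (C k : ℝ) * (1 / (b : ℝ)) ^ k = ξ - (u : ℝ) / ((v * b ^ m : ℕ) : ℝ))
    (N : ℕ) : N ≤ 10 * (P.natDegree + 1) * (m + Nat.clog b v + L + 1) *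
        (((Icc 1 N).filter fun k => C k ≠ 0).card + 1) ^ P.natDegree := by
  classical
  set D := P.natDegree with hDdef
  set A := ∑ i ∈ range (D + 1), (P.coeff i).natAbs with hA
  set B := b ^ L with hB
  have hB1 : 1 ≤ B := Nat.one_le_pow _ _ (by omega)
  have hlead : P.leadingCoeff ≠ 0 := by
    intro h
    rw [h] at hP
    exact hP (dvd_zero _)
  have hroot := root_bound P hlead hD ξ hξ
  rw [← hDdef, ← hA] at hroot
  set W := B + B + 1 with hW
  set q := v * b ^ m with hq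
  have hq0 : 0 < q := by
    rw [hq]; exact Nat.mul_pos hv (pow_pos (by omega) _)
  have hq0' : (0 : ℝ) < q := by exact_mod_cast hq0
  let d : Dat :=
    { b := b
      hb := hb
      B := B
      C := C
      C0 := hC0
      CB := hCB
      D := D
      R := Rc P u q
      root := by
        rw [hsum]
        exact Rc_root P u q hq0 ξ hξ }
  have hvq : (v : ℤ) ∣ (q : ℤ) := by
    rw [hq]; push_cast; exact Dvd.intro _ rfl
  -- the bound for `u`
  have hy : |∑' k : ℕ, (C k : ℝ) * (1 / (b : ℝ)) ^ k| ≤ B := by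
    have hb' : (2 : ℝ) ≤ b := by exact_mod_cast hb
    have hβ : (1 / (b : ℝ)) ≤ 1 / 2 := one_div_le_one_div_of_le (by norm_num) hb'
    have hβ0 : (0 : ℝ) ≤ 1 / (b : ℝ) := by positivity
    have hsumm : Summable fun k : ℕ => ‖(C k : ℝ) * (1 / (b : ℝ)) ^ k‖ := by
      have := d.summable_F
      refine this.congr fun k => ?_
      rw [d.coeff_F]
      rfl
    have hsplit : ∑' k : ℕ, (C k : ℝ) * (1 / (b : ℝ)) ^ k =
        ∑' k : ℕ, (C (k + 1) : ℝ) * (1 / (b : ℝ)) ^ (k + 1) := by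
      rw [hsumm.of_norm.tsum_eq_zero_add, hC0]
      simp
    rw [hsplit]
    have hs2 : Summable fun k : ℕ => ‖(C (k + 1) : ℝ) * (1 / (b : ℝ)) ^ (k + 1)‖ :=
      (summable_nat_add_iff (f := fun k : ℕ => ‖(C k : ℝ) * (1 / (b : ℝ)) ^ k‖) 1).2 hsumm
    have hg : HasSum (fun k : ℕ => (B : ℝ) * ((1 / 2 : ℝ) ^ k * (1 / 2))) (B * 1) := by
      apply HasSum.mul_left
      have := hasSum_geometric_two.mul_right (1 / 2 : ℝ)
      norm_num at this ⊢
      exact this
    calc |∑' k : ℕ, (C (k + 1) : ℝ) * (1 / (b : ℝ)) ^ (k + 1)|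
        ≤ ∑' k : ℕ, ‖(C (k + 1) : ℝ) * (1 / (b : ℝ)) ^ (k + 1)‖ := norm_tsum_le_tsum_norm hs2
      _ ≤ ∑' k : ℕ, (B : ℝ) * ((1 / 2 : ℝ) ^ k * (1 / 2)) := by
          refine hs2.tsum_le_tsum (fun k => ?_) hg.summable
          rw [norm_mul, norm_pow, Real.norm_eq_abs, Real.norm_eq_abs, abs_of_nonneg hβ0, ← pow_succ]
          have h1 : |(C (k + 1) : ℝ)| ≤ B := by
            have h2 : |(C (k + 1) : ℝ)| = ((C (k + 1)).natAbs : ℝ) := by
              rw [Nat.cast_natAbs]; push_cast; rfl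
            rw [h2]
            exact_mod_cast hCB (k + 1)
          gcongr
      _ = B := by rw [hg.tsum_eq, mul_one]
  have hU : u.natAbs ≤ q * W := by
    have h1 : |(u : ℝ)| ≤ q * W := by
      have h2 : (u : ℝ) = q * (ξ - ∑' k : ℕ, (C k : ℝ) * (1 / (b : ℝ)) ^ k) := by
        rw [hsum]
        field_simp
        ring
      rw [h2, abs_mul, abs_of_pos hq0']
      refine mul_le_mul_of_nonneg_left ?_ hq0'.le
      refine (abs_sub _ _).trans ?_
      have hAB : (A : ℝ) ≤ B := by exact_mod_cast hL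
      rw [hW]
      push_cast
      linarith
    have h2 : |(u : ℝ)| = ((u.natAbs : ℕ) : ℝ) := by
      rw [Nat.cast_natAbs]; push_cast; rfl
    rw [h2] at h1
    exact_mod_cast h1
  set lam := Nat.clog b v with hlam
  have hvlam : v ≤ b ^ lam := Nat.le_pow_clog (by omega) v
  have hWb : W ≤ b ^ (L + 2) := by
    rw [pow_add, hW]
    have : 4 ≤ b ^ 2 := by nlinarith
    nlinarith
  have hμ : ∀ j, 1 ≤ j → j ≤ D → (Rc P u q j).natAbs * B ^ D ≤
      b ^ (L + D + (L + 2) * D + (m + lam) * D + L * D) := by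
    intro j _ _
    have h5 := Rc_bound P u q W j (by omega) hU
    rw [← hDdef, ← hA] at h5
    have h6 : q ≤ b ^ (m + lam) := by
      rw [hq, pow_add, mul_comm]
      exact Nat.mul_le_mul_left _ hvlam
    calc (Rc P u q j).natAbs * B ^ D ≤ (A * 2 ^ D * W ^ D * q ^ D) * B ^ D :=
          Nat.mul_le_mul_right _ h5
      _ ≤ (b ^ L * b ^ D * (b ^ (L + 2)) ^ D * (b ^ (m + lam)) ^ D) * (b ^ L) ^ D := by
          gcongr
      _ = _ := by
          rw [← pow_mul, ← pow_mul, ← pow_mul, ← pow_add, ← pow_add, ← pow_add, ← pow_add]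
  have hmain := d.core2 (v : ℤ) (L + D + (L + 2) * D + (m + lam) * D + L * D)
    (fun j hj => hvq.trans (Rc_dvd P u q j hj))
    (fun i => Rc_zero P u q b v hvq hvb hvu hP i) hμ hB1 N
  have hM : d.M N = ((Icc 1 N).filter fun k => C k ≠ 0).card := rfl
  rw [hM] at hmain
  set M := ((Icc 1 N).filter fun k => C k ≠ 0).card with hMdef
  have hMD : 1 ≤ (M + 1) ^ D := Nat.one_le_pow _ _ (Nat.succ_pos _)
  have hdD : d.D = D := rfl
  rw [hdD] at hmain
  set Y := (M + 1) ^ D with hY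
  set μ := L + D + (L + 2) * D + (m + lam) * D + L * D with hμdef
  have e2 : μ ≤ μ * Y := Nat.le_mul_of_pos_right _ hMD
  have e3 : 2 * μ + 2 * D ≤ 10 * (D + 1) * (m + lam + L + 1) := by
    rw [hμdef]
    nlinarith [Nat.zero_le (D * m), Nat.zero_le (D * lam), Nat.zero_le (D * L)]
  calc N ≤ 2 * (μ * Y) + 2 * D * Y := by omega
    _ = (2 * μ + 2 * D) * Y := by ring
    _ ≤ _ := Nat.mul_le_mul_right _ e3

/-- expansions with bounded integer digits -/
theorem uone (P : ℤ[X]) (hD : P.natDegree ≠ 0) (ξ : ℝ) (hξ : aeval ξ P = 0) (b : ℕ)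
    (hb : 2 ≤ b) (L : ℕ) (hL : ∑ i ∈ range (P.natDegree + 1), (P.coeff i).natAbs ≤ b ^ L)
    (m v : ℕ) (u : ℤ) (hv : 1 ≤ v) (hvb : IsCoprime (v : ℤ) b)
    (hvu : IsCoprime (v : ℤ) u) (hP : ¬ (v : ℤ) ∣ P.leadingCoeff) (g h : ℕ → ℤ)
    (hg : ∀ k, |g k| ≤ (b : ℤ) ^ L) (hh : ∀ k, |h k| ≤ (b : ℤ) ^ L) (hgx : Expands b g ξ)
    (hhx : Expands b h (u / (v * b ^ m))) (N : ℕ) :
    N ≤ 20 * (P.natDegree + 1) * (m + Nat.clog b v + L + 1) *
      (hdist g h N + 1) ^ P.natDegree := by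
  obtain ⟨z, hz⟩ := hgx
  obtain ⟨w, hw⟩ := hhx
  have hb0 : (b : ℝ) ≠ 0 := by positivity
  have hv0 : (v : ℝ) ≠ 0 := by
    have : 0 < v := hv
    positivity
  have h1 : HasSum (fun k : ℕ => (((g (k + 1) - h (k + 1) : ℤ)) : ℝ) * (1 / (b : ℝ)) ^ (k + 1))
      (ξ - z - (u / (v * b ^ m) - w)) := by
    refine (hz.sub hw).congr_fun fun k => ?_
    push_cast
    rw [one_div, inv_pow]
    ring
  set C : ℕ → ℤ := fun k => if k = 0 then 0 else g k - h k with hC
  have h2 : HasSum (fun k : ℕ => (C k : ℝ) * (1 / (b : ℝ)) ^ k)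
      (ξ - z - (u / (v * b ^ m) - w)) := by
    rw [← hasSum_nat_add_iff' 1]
    simp only [range_one, sum_singleton]
    have : (C 0 : ℝ) * (1 / (b : ℝ)) ^ 0 = 0 := by simp [hC]
    rw [this, sub_zero]
    refine h1.congr_fun fun k => ?_
    simp [hC]
  have hpow : 2 * b ^ L ≤ b ^ (L + 1) := by
    rw [pow_succ, mul_comm]
    exact Nat.mul_le_mul_left _ hb
  have h3 := uexp P hD ξ hξ b hb (L + 1) (hL.trans (Nat.pow_le_pow_right (by omega) (by omega)))
    m v (u + (z - w) * (v * b ^ m)) hv hvb (by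
    have : (u + (z - w) * ((v : ℤ) * (b : ℤ) ^ m)) = u + (v : ℤ) * ((z - w) * (b : ℤ) ^ m) := by ring
    rw [this]
    exact IsCoprime.add_mul_left_right hvu _) hP C (by simp [hC]) (by
      intro k
      by_cases hk : k = 0
      · simp [hC, hk]
      · simp only [hC, if_neg hk]
        refine le_trans ?_ hpow
        have h4 := hg k
        have h5 := hh k
        have h6 : |g k - h k| ≤ 2 * (b : ℤ) ^ L := by
          refine (abs_sub _ _).trans ?_
          linarith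
        rw [Int.abs_eq_natAbs] at h6
        exact_mod_cast h6) (by
      rw [h2.tsum_eq]
      push_cast
      field_simp
      ring) N
  have h7 : ((Icc 1 N).filter fun k => C k ≠ 0).card = hdist g h N := by
    unfold hdist
    congr 1
    apply filter_congr
    intro k hk
    rw [mem_Icc] at hk
    simp only [hC, if_neg (by omega : ¬ k = 0)]
    rw [ne_eq, sub_eq_zero]
  rw [h7] at h3
  refine h3.trans (Nat.mul_le_mul_right _ ?_)
  nlinarith [Nat.zero_le (P.natDegree * m), Nat.zero_le (P.natDegree * L),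
    Nat.zero_le (P.natDegree * Nat.clog b v)]

end Pool.Agent.TH805.DR
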