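import Pool.Agent.TH805.DR.Poly

set_option autoImplicit false

namespace Pool.Agent.TH805.DR

open Finset Polynomial Filter Topology

/-- the `k`-th digit of `x` after the point in base `b` -/
noncomputable def digit (b : ℕ) (x : ℝ) (k : ℕ) : ℤ := ⌊x * (b : ℝ) ^ k⌋ % (b : ℤ)

/-- `x` is congruent to `∑_{k ≥ 1} g k b^(-k)` modulo `1` -/
def Expands (b : ℕ) (g : ℕ → ℤ) (x : ℝ) : Prop :=
  ∃ z : ℤ, HasSum (fun k : ℕ => (g (k + 1) : ℝ) / (b : ℝ) ^ (k + 1)) (x - z)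

/-- the number of `1 ≤ k ≤ N` with `g k ≠ h k` -/
def hdist (g h : ℕ → ℤ) (N : ℕ) : ℕ := ((Icc 1 N).filter fun k => g k ≠ h k).card

lemma digit_step (b : ℕ) (hb : 2 ≤ b) (x : ℝ) (n : ℕ) :
    ⌊x * (b : ℝ) ^ (n + 1)⌋ = b * ⌊x * (b : ℝ) ^ n⌋ + digit b x (n + 1) := by
  have h1 := Int.mul_natCast_floor_div_cancel (n := b) (by omega) (x * (b : ℝ) ^ n)
  have h2 : x * (b : ℝ) ^ (n + 1) = x * (b : ℝ) ^ n * b := by rw [pow_succ]; ring
  unfold digit
  rw [h2, ← h1]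
  have := Int.emod_add_mul_ediv ⌊x * (b : ℝ) ^ n * b⌋ (b : ℤ)
  linarith

lemma digit_partial (b : ℕ) (hb : 2 ≤ b) (x : ℝ) (n : ℕ) :
    ∑ k ∈ range n, (digit b x (k + 1) : ℝ) / (b : ℝ) ^ (k + 1) =
      (⌊x * (b : ℝ) ^ n⌋ : ℝ) / (b : ℝ) ^ n - ⌊x⌋ := by
  have hb0 : (b : ℝ) ≠ 0 := by positivity
  induction n with
  | zero => simp
  | succ n ih =>
    rw [sum_range_succ, ih, digit_step b hb x n]
    push_cast
    rw [pow_succ]
    field_simp
    ring

lemma digit_nonneg (b : ℕ) (hb : 2 ≤ b) (x : ℝ) (k : ℕ) : 0 ≤ digit b x k :=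
  Int.emod_nonneg _ (by omega)

lemma digit_lt (b : ℕ) (hb : 2 ≤ b) (x : ℝ) (k : ℕ) : digit b x k < b :=
  Int.emod_lt_of_pos _ (by omega)

lemma digit_expands (b : ℕ) (hb : 2 ≤ b) (x : ℝ) : Expands b (digit b x) x := by
  refine ⟨⌊x⌋, ?_⟩
  rw [hasSum_iff_tendsto_nat_of_nonneg]
  · have hb1 : (1 : ℝ) < b := by exact_mod_cast (by omega : 1 < b)
    have h1 : Tendsto (fun n : ℕ => (⌊x * (b : ℝ) ^ n⌋ : ℝ) / (b : ℝ) ^ n) atTop (𝓝 x) := by
      have hlo : ∀ n : ℕ, x - (1 / (b : ℝ)) ^ n ≤ (⌊x * (b : ℝ) ^ n⌋ : ℝ) / (b : ℝ) ^ n := by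
        intro n
        have hp : (0 : ℝ) < (b : ℝ) ^ n := by positivity
        rw [le_div_iff₀ hp, sub_mul, ← mul_pow, one_div, inv_mul_cancel₀ (by positivity), one_pow]
        have := Int.sub_one_lt_floor (x * (b : ℝ) ^ n)
        linarith
      have hhi : ∀ n : ℕ, (⌊x * (b : ℝ) ^ n⌋ : ℝ) / (b : ℝ) ^ n ≤ x := by
        intro n
        have hp : (0 : ℝ) < (b : ℝ) ^ n := by positivity
        rw [div_le_iff₀ hp]
        exact Int.floor_le _
      have ht : Tendsto (fun n : ℕ => x - (1 / (b : ℝ)) ^ n) atTop (𝓝 (x - 0)) :=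
        tendsto_const_nhds.sub (tendsto_pow_atTop_nhds_zero_of_lt_one (by positivity)
          ((div_lt_one (by positivity)).2 hb1))
      rw [sub_zero] at ht
      exact tendsto_of_tendsto_of_tendsto_of_le_of_le ht tendsto_const_nhds hlo hhi
    have h2 := h1.sub_const (⌊x⌋ : ℝ)
    refine h2.congr fun n => ?_
    rw [digit_partial b hb x n]
  · intro k
    have : (0 : ℝ) ≤ digit b x (k + 1) := by exact_mod_cast digit_nonneg b hb x (k + 1)
    positivity

lemma digit_shift (b : ℕ) (x : ℝ) (k j : ℕ) : digit b x (k + j) = digit b (b ^ j * x) k := by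
  unfold digit
  rw [pow_add]
  congr 2
  ring

lemma Expands.add {b : ℕ} {g h : ℕ → ℤ} {x y : ℝ} (hg : Expands b g x) (hh : Expands b h y) :
    Expands b (fun k => g k + h k) (x + y) := by
  obtain ⟨z, hz⟩ := hg
  obtain ⟨w, hw⟩ := hh
  refine ⟨z + w, ?_⟩
  have := hz.add hw
  have e : x + y - ((z + w : ℤ) : ℝ) = x - z + (y - w) := by push_cast; ring
  rw [e]
  refine this.congr_fun fun k => ?_
  push_cast
  ring

lemma Expands.zero (b : ℕ) : Expands b (fun _ => 0) 0 := by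
  refine ⟨0, ?_⟩
  simpa using (hasSum_zero (f := fun _ : ℕ => (0 : ℝ)) )

lemma Expands.const_mul {b : ℕ} {g : ℕ → ℤ} {x : ℝ} (c : ℤ) (hg : Expands b g x) :
    Expands b (fun k => c * g k) (c * x) := by
  obtain ⟨z, hz⟩ := hg
  refine ⟨c * z, ?_⟩
  have := hz.mul_left (c : ℝ)
  have e : (c : ℝ) * x - ((c * z : ℤ) : ℝ) = c * (x - z) := by push_cast; ring
  rw [e]
  refine this.congr_fun fun k => ?_
  push_cast
  ring

lemma Expands.sum {ι : Type*} (s : Finset ι) {b : ℕ} {g : ι → ℕ → ℤ} {x : ι → ℝ}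
    (hg : ∀ i ∈ s, Expands b (g i) (x i)) :
    Expands b (fun k => ∑ i ∈ s, g i k) (∑ i ∈ s, x i) := by
  classical
  induction s using Finset.induction_on with
  | empty => simpa using Expands.zero b
  | insert i s hi ih =>
    simp only [sum_insert hi]
    exact (hg i (mem_insert_self _ _)).add (ih fun j hj => hg j (mem_insert_of_mem hj))

/-- first part of the result -/
theorem main_one (P : ℤ[X]) (ξ : ℝ) (hξ : aeval ξ P = 0) (b : ℕ)
    (hb : 2 ≤ b) (B : ℕ) : ∃ K : ℕ, ∀ (m v : ℕ) (u : ℤ), 1 ≤ v → IsCoprime (v : ℤ) b →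
      IsCoprime (v : ℤ) u → ¬ (v : ℤ) ∣ P.leadingCoeff → ∀ g h : ℕ → ℤ,
      (∀ k, |g k| ≤ B) → (∀ k, |h k| ≤ B) → Expands b g ξ → Expands b h (u / (v * b ^ m)) →
      ∀ N : ℕ, N ≤ K * (m + v ^ P.natDegree) * (hdist g h N + 1) ^ P.natDegree := by
  obtain ⟨K, hK⟩ := main_exp P ξ hξ b hb (2 * B)
  refine ⟨K, ?_⟩
  intro m v u hv hvb hvu hP g h hg hh ⟨z, hz⟩ ⟨w, hw⟩ N
  have hb0 : (b : ℝ) ≠ 0 := by positivity
  have hv0 : (v : ℝ) ≠ 0 := by
    have : 0 < v := hv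
    positivity
  have h1 : HasSum (fun k : ℕ => (((g (k + 1) - h (k + 1) : ℤ)) : ℝ) * (1 / (b : ℝ)) ^ (k + 1))
      (ξ - z - (u / (v * b ^ m) - w)) := by
    refine (hz.sub hw).congr_fun fun k => ?_
    push_cast
    rw [one_div, inv_pow]
    ring
  set C : ℕ → ℤ := fun k => if k = 0 then 0 else g k - h k with hC
  have h2 : HasSum (fun k : ℕ => (C k : ℝ) * (1 / (b : ℝ)) ^ k)
      (ξ - z - (u / (v * b ^ m) - w)) := by
    rw [← hasSum_nat_add_iff' 1]
    simp only [range_one, sum_singleton]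
    have : (C 0 : ℝ) * (1 / (b : ℝ)) ^ 0 = 0 := by simp [hC]
    rw [this, sub_zero]
    refine h1.congr_fun fun k => ?_
    simp [hC]
  have h3 := hK m v (u + (z - w) * (v * b ^ m)) hv hvb (by
    have : (u + (z - w) * ((v : ℤ) * (b : ℤ) ^ m)) = u + (v : ℤ) * ((z - w) * (b : ℤ) ^ m) := by ring
    rw [this]
    exact IsCoprime.add_mul_left_right hvu _) hP C (by simp [hC]) (by
      intro k
      by_cases hk : k = 0
      · simp [hC, hk]
      · simp only [hC, if_neg hk]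
        have h4 := hg k
        have h5 := hh k
        have h6 : |g k - h k| ≤ 2 * B := by
          refine (abs_sub _ _).trans ?_
          linarith
        rw [Int.abs_eq_natAbs] at h6
        exact_mod_cast h6) (by
      rw [h2.tsum_eq]
      push_cast
      field_simp
      ring) N
  refine h3.trans (le_of_eq ?_)
  congr 3
  unfold hdist
  congr 1
  apply filter_congr
  intro k hk
  rw [mem_Icc] at hk
  simp only [hC, if_neg (by omega : ¬ k = 0)]
  rw [ne_eq, sub_eq_zero]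

end Pool.Agent.TH805.DR
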