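import Pool.Agent.TH805.DR.Digits
import Pool.Agent.H820R3.DG.Real

set_option autoImplicit false

namespace Pool.Agent.TH805.DR

open Finset Polynomial Filter Topology

/-- the value of an eventually periodic sequence -/
lemma periodic_expands (b : ℕ) (hb : 2 ≤ b) (B : ℕ) (e : ℕ → ℤ) (he : ∀ k, |e k| ≤ B) (m s : ℕ)
    (hs : 1 ≤ s) (hper : ∀ k, m < k → e (k + s) = e k) :
    ∃ I : ℤ, Expands b e
      (((I * ((b : ℤ) ^ s - 1) + ∑ i ∈ range s, e (m + 1 + i) * (b : ℤ) ^ (s - 1 - i) : ℤ) : ℝ) /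
        (((b : ℝ) ^ s - 1) * (b : ℝ) ^ m)) := by
  have hb0 : (0 : ℝ) < b := by positivity
  have hb1 : (1 : ℝ) < b := by exact_mod_cast (by omega : 1 < b)
  set f : ℕ → ℝ := fun k => (e (k + 1) : ℝ) / (b : ℝ) ^ (k + 1) with hf
  have hsum : Summable f := by
    have hg : Summable fun k : ℕ => (B : ℝ) * (1 / (b : ℝ)) ^ k :=
      (summable_geometric_of_lt_one (by positivity) ((div_lt_one hb0).2 hb1)).mul_left _
    refine Summable.of_norm_bounded hg fun k => ?_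
    rw [hf]
    simp only []
    rw [norm_div, norm_pow, Real.norm_eq_abs, Real.norm_eq_abs, abs_of_pos hb0]
    have h1 : |(e (k + 1) : ℝ)| ≤ B := by exact_mod_cast he (k + 1)
    have h2 : (B : ℝ) * (1 / (b : ℝ)) ^ k = B / (b : ℝ) ^ k := by
      rw [one_div, inv_pow]; rfl
    rw [h2]
    have h3 : (b : ℝ) ^ k ≤ (b : ℝ) ^ (k + 1) := pow_le_pow_right₀ hb1.le (Nat.le_succ k)
    gcongr
  set X := ∑' k : ℕ, f (k + m) with hX
  have hsm : Summable fun k : ℕ => f (k + m) := (summable_nat_add_iff m).2 hsum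
  have hXeq : X = ∑ k ∈ range s, f (k + m) + X / (b : ℝ) ^ s := by
    rw [hX]
    conv_lhs => rw [← hsm.sum_add_tsum_nat_add s]
    congr 1
    rw [← tsum_div_const]
    refine tsum_congr fun k => ?_
    rw [hf]
    simp only []
    have : k + s + m + 1 = (k + m + 1) + s := by ring
    rw [this, hper (k + m + 1) (by omega), pow_add ((b : ℝ)) (k + m + 1) s]
    rw [div_div]
  have hS : (b : ℝ) ^ s * ∑ k ∈ range s, f (k + m) =
      ((∑ i ∈ range s, e (m + 1 + i) * (b : ℤ) ^ (s - 1 - i) : ℤ) : ℝ) / (b : ℝ) ^ m := by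
    rw [mul_sum]
    push_cast
    rw [sum_div]
    refine sum_congr rfl fun k hk => ?_
    rw [mem_range] at hk
    rw [hf]
    simp only []
    have h1 : k + m + 1 = m + 1 + k := by ring
    rw [h1]
    have h2 : (b : ℝ) ^ s = (b : ℝ) ^ (s - 1 - k) * (b : ℝ) ^ (k + 1) := by
      rw [← pow_add]; congr 1; omega
    have h3 : (b : ℝ) ^ (m + 1 + k) = (b : ℝ) ^ m * (b : ℝ) ^ (k + 1) := by
      rw [← pow_add]; congr 1; ring
    rw [h2, h3]
    field_simp
  have hbs : (1 : ℝ) < (b : ℝ) ^ s := one_lt_pow₀ hb1 (by omega)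
  have hbs0 : (b : ℝ) ^ s - 1 ≠ 0 := by linarith
  have hX2 : X = ((∑ i ∈ range s, e (m + 1 + i) * (b : ℤ) ^ (s - 1 - i) : ℤ) : ℝ) /
      (((b : ℝ) ^ s - 1) * (b : ℝ) ^ m) := by
    have h1 : X * ((b : ℝ) ^ s - 1) = (b : ℝ) ^ s * ∑ k ∈ range s, f (k + m) := by
      have hbs' : (b : ℝ) ^ s ≠ 0 := by positivity
      have h2 : (b : ℝ) ^ s * X = (b : ℝ) ^ s * ∑ k ∈ range s, f (k + m) + X := by
        conv_lhs => rw [hXeq]
        rw [mul_add, mul_div_cancel₀ _ hbs']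
      linarith
    rw [hS] at h1
    rw [eq_div_iff (by positivity), ← mul_assoc, h1]
    field_simp
  refine ⟨∑ k ∈ range m, e (k + 1) * (b : ℤ) ^ (m - 1 - k), 0, ?_⟩
  rw [Int.cast_zero, sub_zero]
  have hfin : ∑' k : ℕ, f k = (((∑ k ∈ range m, e (k + 1) * (b : ℤ) ^ (m - 1 - k)) *
      ((b : ℤ) ^ s - 1) + ∑ i ∈ range s, e (m + 1 + i) * (b : ℤ) ^ (s - 1 - i) : ℤ) : ℝ) /
        (((b : ℝ) ^ s - 1) * (b : ℝ) ^ m) := by
    rw [← hsum.sum_add_tsum_nat_add m, ← hX, hX2]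
    have h1 : ∑ k ∈ range m, f k =
        ((∑ k ∈ range m, e (k + 1) * (b : ℤ) ^ (m - 1 - k) : ℤ) : ℝ) / (b : ℝ) ^ m := by
      push_cast
      rw [sum_div]
      refine sum_congr rfl fun k hk => ?_
      rw [mem_range] at hk
      rw [hf]
      simp only []
      have h2 : (b : ℝ) ^ m = (b : ℝ) ^ (m - 1 - k) * (b : ℝ) ^ (k + 1) := by
        rw [← pow_add]; congr 1; omega
      rw [h2]
      field_simp
    rw [h1]
    push_cast
    field_simp
  rw [← hfin]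
  exact hsum.hasSum

/-- the distance from an eventually periodic sequence -/
theorem main_periodic (P : ℤ[X]) (ξ : ℝ) (hξ : aeval ξ P = 0) (b : ℕ)
    (hb : 2 ≤ b) (B : ℕ) : ∃ K : ℕ, ∀ (m s : ℕ) (e g : ℕ → ℤ), 1 ≤ s → (∀ k, |e k| ≤ B) →
      (∀ k, m < k → e (k + s) = e k) →
      ¬ ((b : ℤ) ^ s - 1) ∣ P.leadingCoeff * ∑ i ∈ range s, e (m + 1 + i) * (b : ℤ) ^ (s - 1 - i) →
      (∀ k, |g k| ≤ B) → Expands b g ξ →
      ∀ N : ℕ, N ≤ K * (m + b ^ (s * P.natDegree)) * (hdist g e N + 1) ^ P.natDegree := by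
  obtain ⟨K, hK⟩ := main_one P ξ hξ b hb B
  refine ⟨K, ?_⟩
  intro m s e g hs he hper hE hg hgx N
  obtain ⟨I, hI⟩ := periodic_expands b hb B e he m s hs hper
  set E := ∑ i ∈ range s, e (m + 1 + i) * (b : ℤ) ^ (s - 1 - i) with hEdef
  have hbs : (2 : ℤ) ≤ (b : ℤ) ^ s := by
    calc (2 : ℤ) ≤ b := by exact_mod_cast hb
      _ = (b : ℤ) ^ 1 := (pow_one _).symm
      _ ≤ (b : ℤ) ^ s := pow_le_pow_right₀ (by omega) hs
  have hQpos : 0 < (b : ℤ) ^ s - 1 := by linarith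
  -- the reduced denominator
  set G : ℕ := Int.gcd ((b : ℤ) ^ s - 1) E with hG
  have hG0 : 0 < G := Int.gcd_pos_of_ne_zero_left _ hQpos.ne'
  obtain ⟨v', hv'⟩ : (G : ℤ) ∣ (b : ℤ) ^ s - 1 := Int.gcd_dvd_left ..
  obtain ⟨E', hE'⟩ : (G : ℤ) ∣ E := Int.gcd_dvd_right ..
  have hG0' : (0 : ℤ) < G := by exact_mod_cast hG0
  have hv'pos : 0 < v' := by
    by_contra hcon
    push Not at hcon
    have : (G : ℤ) * v' ≤ 0 := mul_nonpos_of_nonneg_of_nonpos hG0'.le hcon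
    linarith
  obtain ⟨v, rfl⟩ : ∃ v : ℕ, v' = (v : ℤ) := ⟨v'.toNat, by omega⟩
  have hcop : IsCoprime (v : ℤ) E' := by
    rw [Int.isCoprime_iff_gcd_eq_one]
    have h1 : Int.gcd ((G : ℤ) * v) ((G : ℤ) * E') = G * Int.gcd v E' := by
      rw [Int.gcd_mul_left]; simp
    have h2 : G * Int.gcd v E' = G := by
      rw [← h1, ← hv', ← hE']
    have h3 : G * Int.gcd v E' = G * 1 := by rw [h2, mul_one]
    exact Nat.eq_of_mul_eq_mul_left hG0 h3
  have hvb : IsCoprime (v : ℤ) b := by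
    have h1 : IsCoprime ((b : ℤ) ^ s - 1) (b : ℤ) := by
      refine ⟨-1, (b : ℤ) ^ (s - 1), ?_⟩
      have : (b : ℤ) ^ s = (b : ℤ) ^ (s - 1) * b := by
        rw [← pow_succ]; congr 1; omega
      rw [this]; ring
    refine IsCoprime.of_isCoprime_of_dvd_left h1 ?_
    rw [hv']
    exact Dvd.intro_left _ rfl
  have hval : (((I * ((b : ℤ) ^ s - 1) + E : ℤ) : ℝ) / (((b : ℝ) ^ s - 1) * (b : ℝ) ^ m)) =
      ((I * v + E' : ℤ) : ℝ) / ((v : ℝ) * (b : ℝ) ^ m) := by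
    have h1 : ((b : ℝ) ^ s - 1) = G * v := by
      have := congrArg (Int.cast : ℤ → ℝ) hv'
      push_cast at this
      exact this
    have h2 : (E : ℝ) = G * E' := by
      have := congrArg (Int.cast : ℤ → ℝ) hE'
      push_cast at this
      exact this
    push_cast
    rw [h1, h2]
    have hGr : (G : ℝ) ≠ 0 := by exact_mod_cast hG0.ne'
    have hvr : (v : ℝ) ≠ 0 := by
      have : v ≠ 0 := by rintro rfl; simp at hv'pos
      exact_mod_cast this
    have hbr : (b : ℝ) ≠ 0 := by positivity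
    field_simp
  rw [hval] at hI
  have hlead : ¬ (v : ℤ) ∣ P.leadingCoeff := by
    intro ⟨c, hc⟩
    apply hE
    rw [hv', hE', hc]
    exact ⟨c * E', by ring⟩
  have hfin := hK m v (I * v + E') (by omega) hvb (by
    rw [mul_comm I, add_comm]
    exact IsCoprime.add_mul_left_right hcop I) hlead g e hg he hgx hI N
  refine hfin.trans ?_
  have hvle : v ^ P.natDegree ≤ b ^ (s * P.natDegree) := by
    rw [pow_mul]
    refine Nat.pow_le_pow_left ?_ _
    have h1 : (v : ℤ) ≤ (b : ℤ) ^ s := by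
      have : (v : ℤ) ≤ G * v := by nlinarith
      linarith
    exact_mod_cast h1
  gcongr

/-- relations between the digits of several numbers -/
theorem main_relation (b : ℕ) (hb : 2 ≤ b) (r J : ℕ) (x : Fin r → ℝ) (q : Fin r → Fin J → ℤ)
    (P : ℤ[X]) (hP : aeval (∑ l, ∑ j, (q l j : ℝ) * ((b : ℝ) ^ (j : ℕ) * x l)) P = 0) (B : ℕ) :
    ∃ K : ℕ, ∀ (m s : ℕ) (e : ℕ → ℤ), 1 ≤ s → (∀ k, |e k| ≤ B) →
      (∀ k, m < k → e (k + s) = e k) →
      ¬ ((b : ℤ) ^ s - 1) ∣ P.leadingCoeff * ∑ i ∈ range s, e (m + 1 + i) * (b : ℤ) ^ (s - 1 - i) →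
      ∀ N : ℕ, N ≤ K * (m + b ^ (s * P.natDegree)) *
        (hdist (fun k => ∑ l, ∑ j, q l j * digit b (x l) (k + j)) e N + 1) ^ P.natDegree := by
  set g : ℕ → ℤ := fun k => ∑ l, ∑ j, q l j * digit b (x l) (k + j) with hg
  set B' : ℕ := B + b * ∑ l, ∑ j, (q l j).natAbs with hB'
  obtain ⟨K, hK⟩ := main_periodic P _ hP b hb B'
  refine ⟨K, ?_⟩
  intro m s e hs he hper hE N
  refine hK m s e g hs (fun k => (he k).trans (by
    rw [hB']; push_cast
    have h0 : (0 : ℤ) ≤ b * ∑ l, ∑ j, |q l j| := by positivity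
    linarith)) hper hE ?_ ?_ N
  · intro k
    rw [hg]
    simp only []
    refine (abs_sum_le_sum_abs _ _).trans ?_
    have h1 : ∀ l ∈ (univ : Finset (Fin r)), |∑ j, q l j * digit b (x l) (k + j)| ≤
        b * ∑ j, (((q l j).natAbs : ℕ) : ℤ) := by
      intro l _
      refine (abs_sum_le_sum_abs _ _).trans ?_
      rw [mul_sum]
      refine sum_le_sum fun j _ => ?_
      rw [abs_mul, abs_of_nonneg (digit_nonneg b hb _ _), Int.abs_eq_natAbs, mul_comm]
      exact mul_le_mul_of_nonneg_right (digit_lt b hb _ _).le (by positivity)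
    refine (sum_le_sum h1).trans ?_
    rw [hB']
    push_cast
    rw [← mul_sum]
    have : (0 : ℤ) ≤ B := by positivity
    linarith
  · refine Expands.sum univ fun l _ => Expands.sum univ fun j _ => ?_
    have h1 : (fun k => q l j * digit b (x l) (k + j)) =
        fun k => q l j * digit b ((b : ℝ) ^ (j : ℕ) * x l) k := by
      funext k
      rw [digit_shift]
    rw [h1]
    exact (digit_expands b hb _).const_mul _

end Pool.Agent.TH805.DR
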