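import Pool.Agent.TH805.DR.Core2
import Pool.Agent.TH805.DR.Final

set_option autoImplicit false

namespace Pool.Agent.TH805.DR

open Finset Polynomial

/-- the distance from an eventually periodic sequence, explicit and uniform -/
theorem uper (P : ℤ[X]) (hD : P.natDegree ≠ 0) (ξ : ℝ) (hξ : aeval ξ P = 0) (b : ℕ)
    (hb : 2 ≤ b) (L : ℕ) (hL : ∑ i ∈ range (P.natDegree + 1), (P.coeff i).natAbs ≤ b ^ L)
    (m s : ℕ) (e g : ℕ → ℤ) (hs : 1 ≤ s) (he : ∀ k, |e k| ≤ (b : ℤ) ^ L)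
    (hper : ∀ k, m < k → e (k + s) = e k)
    (hE : ¬ ((b : ℤ) ^ s - 1) ∣
      P.leadingCoeff * ∑ i ∈ range s, e (m + 1 + i) * (b : ℤ) ^ (s - 1 - i))
    (hg : ∀ k, |g k| ≤ (b : ℤ) ^ L) (hgx : Expands b g ξ) (N : ℕ) :
    N ≤ 20 * (P.natDegree + 1) * (m + s + L + 1) * (hdist g e N + 1) ^ P.natDegree := by
  obtain ⟨I, hI⟩ := periodic_expands b hb (b ^ L) e (fun k => by exact_mod_cast he k) m s hs hper
  set E := ∑ i ∈ range s, e (m + 1 + i) * (b : ℤ) ^ (s - 1 - i) with hEdef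
  have hbs : (2 : ℤ) ≤ (b : ℤ) ^ s := by
    calc (2 : ℤ) ≤ b := by exact_mod_cast hb
      _ = (b : ℤ) ^ 1 := (pow_one _).symm
      _ ≤ (b : ℤ) ^ s := pow_le_pow_right₀ (by omega) hs
  have hQpos : 0 < (b : ℤ) ^ s - 1 := by linarith
  -- the reduced denominator
  set G : ℕ := Int.gcd ((b : ℤ) ^ s - 1) E with hG
  have hG0 : 0 < G := Int.gcd_pos_of_ne_zero_left _ hQpos.ne'
  obtain ⟨v', hv'⟩ : (G : ℤ) ∣ (b : ℤ) ^ s - 1 := Int.gcd_dvd_left ..
  obtain ⟨E', hE'⟩ : (G : ℤ) ∣ E := Int.gcd_dvd_right ..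
  have hG0' : (0 : ℤ) < G := by exact_mod_cast hG0
  have hv'pos : 0 < v' := by
    by_contra hcon
    push Not at hcon
    have : (G : ℤ) * v' ≤ 0 := mul_nonpos_of_nonneg_of_nonpos hG0'.le hcon
    linarith
  obtain ⟨v, rfl⟩ : ∃ v : ℕ, v' = (v : ℤ) := ⟨v'.toNat, by omega⟩
  have hcop : IsCoprime (v : ℤ) E' := by
    rw [Int.isCoprime_iff_gcd_eq_one]
    have h1 : Int.gcd ((G : ℤ) * v) ((G : ℤ) * E') = G * Int.gcd v E' := by
      rw [Int.gcd_mul_left]; simp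
    have h2 : G * Int.gcd v E' = G := by
      rw [← h1, ← hv', ← hE']
    have h3 : G * Int.gcd v E' = G * 1 := by rw [h2, mul_one]
    exact Nat.eq_of_mul_eq_mul_left hG0 h3
  have hvb : IsCoprime (v : ℤ) b := by
    have h1 : IsCoprime ((b : ℤ) ^ s - 1) (b : ℤ) := by
      refine ⟨-1, (b : ℤ) ^ (s - 1), ?_⟩
      have : (b : ℤ) ^ s = (b : ℤ) ^ (s - 1) * b := by
        rw [← pow_succ]; congr 1; omega
      rw [this]; ring
    refine IsCoprime.of_isCoprime_of_dvd_left h1 ?_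
    rw [hv']
    exact Dvd.intro_left _ rfl
  have hval : (((I * ((b : ℤ) ^ s - 1) + E : ℤ) : ℝ) / (((b : ℝ) ^ s - 1) * (b : ℝ) ^ m)) =
      ((I * v + E' : ℤ) : ℝ) / ((v : ℝ) * (b : ℝ) ^ m) := by
    have h1 : ((b : ℝ) ^ s - 1) = G * v := by
      have := congrArg (Int.cast : ℤ → ℝ) hv'
      push_cast at this
      exact this
    have h2 : (E : ℝ) = G * E' := by
      have := congrArg (Int.cast : ℤ → ℝ) hE'
      push_cast at this
      exact this
    push_cast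
    rw [h1, h2]
    have hGr : (G : ℝ) ≠ 0 := by exact_mod_cast hG0.ne'
    have hvr : (v : ℝ) ≠ 0 := by
      have : v ≠ 0 := by rintro rfl; simp at hv'pos
      exact_mod_cast this
    have hbr : (b : ℝ) ≠ 0 := by positivity
    field_simp
  rw [hval] at hI
  have hlead : ¬ (v : ℤ) ∣ P.leadingCoeff := by
    intro ⟨c, hc⟩
    apply hE
    rw [hv', hE', hc]
    exact ⟨c * E', by ring⟩
  have hfin := uone P hD ξ hξ b hb L hL m v (I * v + E') (by omega) hvb (by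
    rw [mul_comm I, add_comm]
    exact IsCoprime.add_mul_left_right hcop I) hlead g e hg he hgx hI N
  refine hfin.trans ?_
  have hvle : Nat.clog b v ≤ s := by
    refine (Nat.clog_le_iff_le_pow (by omega)).2 ?_
    have h1 : (v : ℤ) ≤ (b : ℤ) ^ s := by
      have : (v : ℤ) ≤ G * v := by nlinarith
      linarith
    exact_mod_cast h1
  refine Nat.mul_le_mul_right _ (Nat.mul_le_mul_left _ (by omega))

end Pool.Agent.TH805.DR
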