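import Pool.Agent.TH805.DR.Core

set_option autoImplicit false

namespace Pool.Agent.TH805.DR

open Finset Polynomial

/-- the coefficients of `q^D P(Y + U/q)` -/
def Rc (P : ℤ[X]) (U : ℤ) (q : ℕ) (j : ℕ) : ℤ :=
  ∑ i ∈ range (P.natDegree + 1), P.coeff i * ((i.choose j : ℕ) : ℤ) * U ^ (i - j) *
    (q : ℤ) ^ (P.natDegree - i + j)

lemma Rc_root (P : ℤ[X]) (U : ℤ) (q : ℕ) (hq : 0 < q) (ξ : ℝ) (hξ : aeval ξ P = 0) :
    ∑ j ∈ range (P.natDegree + 1), (Rc P U q j : ℝ) * (ξ - U / q) ^ j = 0 := by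
  have hq' : (q : ℝ) ≠ 0 := by exact_mod_cast hq.ne'
  have hy : (q : ℝ) * (ξ - U / q) + U = q * ξ := by field_simp; ring
  set y : ℝ := ξ - U / q with hydef
  have h1 : ∀ i ∈ range (P.natDegree + 1),
      ∑ j ∈ range (P.natDegree + 1), ((i.choose j : ℕ) : ℝ) * (U : ℝ) ^ (i - j) * ((q : ℝ) * y) ^ j =
        ((q : ℝ) * ξ) ^ i := by
    intro i hi
    rw [mem_range] at hi
    rw [← hy, add_pow]
    symm
    have hsub : range (i + 1) ⊆ range (P.natDegree + 1) := range_subset_range.2 (by omega)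
    rw [← sum_subset hsub]
    · refine sum_congr rfl fun j _ => by ring
    · intro j _ hj
      rw [mem_range] at hj
      rw [Nat.choose_eq_zero_of_lt (by omega)]
      simp
  have h2 : ∑ j ∈ range (P.natDegree + 1), (Rc P U q j : ℝ) * y ^ j =
      ∑ i ∈ range (P.natDegree + 1), (P.coeff i : ℝ) * (q : ℝ) ^ (P.natDegree - i) *
        ∑ j ∈ range (P.natDegree + 1),
          ((i.choose j : ℕ) : ℝ) * (U : ℝ) ^ (i - j) * ((q : ℝ) * y) ^ j := by
    have : ∀ j ∈ range (P.natDegree + 1), (Rc P U q j : ℝ) * y ^ j =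
        ∑ i ∈ range (P.natDegree + 1), (P.coeff i : ℝ) * (q : ℝ) ^ (P.natDegree - i) *
          (((i.choose j : ℕ) : ℝ) * (U : ℝ) ^ (i - j) * ((q : ℝ) * y) ^ j) := by
      intro j _
      unfold Rc
      push_cast
      rw [sum_mul]
      refine sum_congr rfl fun i _ => ?_
      rw [mul_pow, pow_add]
      ring
    rw [sum_congr rfl this, sum_comm]
    refine sum_congr rfl fun i _ => ?_
    rw [mul_sum]
  rw [h2]
  have h3 : ∑ i ∈ range (P.natDegree + 1), (P.coeff i : ℝ) * (q : ℝ) ^ (P.natDegree - i) *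
        ∑ j ∈ range (P.natDegree + 1),
          ((i.choose j : ℕ) : ℝ) * (U : ℝ) ^ (i - j) * ((q : ℝ) * y) ^ j =
      (q : ℝ) ^ P.natDegree * ∑ i ∈ range (P.natDegree + 1), (P.coeff i : ℝ) * ξ ^ i := by
    rw [mul_sum]
    refine sum_congr rfl fun i hi => ?_
    rw [h1 i hi]
    rw [mem_range] at hi
    have : (q : ℝ) ^ P.natDegree = (q : ℝ) ^ (P.natDegree - i) * (q : ℝ) ^ i := by
      rw [← pow_add]; congr 1; omega
    rw [this, mul_pow]
    ring
  rw [h3]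
  have h4 : ∑ i ∈ range (P.natDegree + 1), (P.coeff i : ℝ) * ξ ^ i = 0 := by
    rw [aeval_eq_sum_range] at hξ
    rw [← hξ]
    refine sum_congr rfl fun i _ => by simp
  rw [h4, mul_zero]

lemma Rc_dvd (P : ℤ[X]) (U : ℤ) (q j : ℕ) (hj : 1 ≤ j) : (q : ℤ) ∣ Rc P U q j := by
  unfold Rc
  refine dvd_sum fun i _ => ?_
  refine Dvd.dvd.mul_left (dvd_pow_self _ (by omega)) _

lemma Rc_zero (P : ℤ[X]) (U : ℤ) (q b v : ℕ) (hv : (v : ℤ) ∣ q)
    (hvb : IsCoprime (v : ℤ) b) (hvU : IsCoprime (v : ℤ) U) (hP : ¬ (v : ℤ) ∣ P.leadingCoeff)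
    (i : ℕ) : ¬ (v : ℤ) ∣ (b : ℤ) ^ i * Rc P U q 0 := by
  intro h
  have h1 : (v : ℤ) ∣ Rc P U q 0 := (hvb.pow_right).dvd_of_dvd_mul_left h
  have h2 : (v : ℤ) ∣ Rc P U q 0 - P.coeff P.natDegree * U ^ P.natDegree := by
    unfold Rc
    rw [sum_range_succ]
    have : P.coeff P.natDegree * ((P.natDegree.choose 0 : ℕ) : ℤ) * U ^ (P.natDegree - 0) *
        (q : ℤ) ^ (P.natDegree - P.natDegree + 0) = P.coeff P.natDegree * U ^ P.natDegree := by
      simp
    rw [this, add_sub_cancel_right]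
    refine dvd_sum fun k hk => ?_
    rw [mem_range] at hk
    exact Dvd.dvd.mul_left (hv.trans (dvd_pow_self _ (by omega))) _
  have h3 : (v : ℤ) ∣ P.coeff P.natDegree * U ^ P.natDegree := by
    have := dvd_sub h1 h2
    simpa using this
  apply hP
  exact (hvU.pow_right).dvd_of_dvd_mul_right h3

lemma Rc_bound (P : ℤ[X]) (U : ℤ) (q W j : ℕ) (hW : 1 ≤ W)
    (hU : U.natAbs ≤ q * W) :
    (Rc P U q j).natAbs ≤ ((∑ i ∈ range (P.natDegree + 1), (P.coeff i).natAbs) *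
      2 ^ P.natDegree * W ^ P.natDegree) * q ^ P.natDegree := by
  unfold Rc
  refine (Int.natAbs_sum_le _ _).trans ?_
  rw [sum_mul, sum_mul, sum_mul]
  refine sum_le_sum fun i hi => ?_
  rw [mem_range] at hi
  by_cases hij : j ≤ i
  · rw [Int.natAbs_mul, Int.natAbs_mul, Int.natAbs_mul, Int.natAbs_pow, Int.natAbs_pow,
      Int.natAbs_natCast, Int.natAbs_natCast]
    have h1 : i.choose j ≤ 2 ^ P.natDegree :=
      (Nat.choose_le_two_pow i j).trans (Nat.pow_le_pow_right (by norm_num) (by omega))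
    have h2 : U.natAbs ^ (i - j) ≤ q ^ (i - j) * W ^ P.natDegree := by
      calc U.natAbs ^ (i - j) ≤ (q * W) ^ (i - j) := Nat.pow_le_pow_left hU _
        _ = q ^ (i - j) * W ^ (i - j) := mul_pow _ _ _
        _ ≤ _ := Nat.mul_le_mul_left _ (Nat.pow_le_pow_right hW (by omega))
    calc (P.coeff i).natAbs * i.choose j * U.natAbs ^ (i - j) * q ^ (P.natDegree - i + j)
        ≤ (P.coeff i).natAbs * 2 ^ P.natDegree * (q ^ (i - j) * W ^ P.natDegree) *
          q ^ (P.natDegree - i + j) := by gcongr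
      _ = (P.coeff i).natAbs * 2 ^ P.natDegree * W ^ P.natDegree *
          (q ^ (i - j) * q ^ (P.natDegree - i + j)) := by ring
      _ = _ := by
          rw [← pow_add]
          congr 2
          omega
  · rw [Nat.choose_eq_zero_of_lt (by omega)]
    simp

/-- The core theorem for expansions. -/
theorem main_exp (P : ℤ[X]) (ξ : ℝ) (hξ : aeval ξ P = 0) (b : ℕ)
    (hb : 2 ≤ b) (B : ℕ) : ∃ K : ℕ, ∀ (m v : ℕ) (u : ℤ), 1 ≤ v → IsCoprime (v : ℤ) b →
      IsCoprime (v : ℤ) u → ¬ (v : ℤ) ∣ P.leadingCoeff → ∀ C : ℕ → ℤ, C 0 = 0 →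
      (∀ k, (C k).natAbs ≤ B) →
      (∑' k : ℕ, (C k : ℝ) * (1 / (b : ℝ)) ^ k = ξ - (u : ℝ) / ((v * b ^ m : ℕ) : ℝ)) →
      ∀ N : ℕ, N ≤ K * (m + v ^ P.natDegree) *
        (((Icc 1 N).filter fun k => C k ≠ 0).card + 1) ^ P.natDegree := by
  classical
  set D := P.natDegree with hDdef
  set A := ∑ i ∈ range (D + 1), (P.coeff i).natAbs with hA
  obtain ⟨W0, hW0⟩ := exists_nat_ge |ξ|
  set W := W0 + B + 1 with hW
  refine ⟨2 * D * (1 + A * 2 ^ D * W ^ D * (B + 1) ^ D), ?_⟩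
  intro m v u hv hvb hvu hP C hC0 hCB hsum N
  set q := v * b ^ m with hq
  have hq0 : 0 < q := by
    rw [hq]; exact Nat.mul_pos hv (pow_pos (by omega) _)
  have hq0' : (0 : ℝ) < q := by exact_mod_cast hq0
  let d : Dat :=
    { b := b
      hb := hb
      B := B + 1
      C := C
      C0 := hC0
      CB := fun k => (hCB k).trans (Nat.le_succ _)
      D := D
      R := Rc P u q
      root := by
        rw [hsum]
        exact Rc_root P u q hq0 ξ hξ }
  have hvq : (v : ℤ) ∣ (q : ℤ) := by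
    rw [hq]; push_cast; exact Dvd.intro _ rfl
  -- the bound for `u`
  have hy : |∑' k : ℕ, (C k : ℝ) * (1 / (b : ℝ)) ^ k| ≤ B := by
    have hb' : (2 : ℝ) ≤ b := by exact_mod_cast hb
    have hβ : (1 / (b : ℝ)) ≤ 1 / 2 := one_div_le_one_div_of_le (by norm_num) hb'
    have hβ0 : (0 : ℝ) ≤ 1 / (b : ℝ) := by positivity
    have hsumm : Summable fun k : ℕ => ‖(C k : ℝ) * (1 / (b : ℝ)) ^ k‖ := by
      have := d.summable_F
      refine this.congr fun k => ?_
      rw [d.coeff_F]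
      rfl
    have hsplit : ∑' k : ℕ, (C k : ℝ) * (1 / (b : ℝ)) ^ k =
        ∑' k : ℕ, (C (k + 1) : ℝ) * (1 / (b : ℝ)) ^ (k + 1) := by
      rw [hsumm.of_norm.tsum_eq_zero_add, hC0]
      simp
    rw [hsplit]
    have hs2 : Summable fun k : ℕ => ‖(C (k + 1) : ℝ) * (1 / (b : ℝ)) ^ (k + 1)‖ :=
      (summable_nat_add_iff (f := fun k : ℕ => ‖(C k : ℝ) * (1 / (b : ℝ)) ^ k‖) 1).2 hsumm
    have hg : HasSum (fun k : ℕ => (B : ℝ) * ((1 / 2 : ℝ) ^ k * (1 / 2))) (B * 1) := by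
      apply HasSum.mul_left
      have := hasSum_geometric_two.mul_right (1 / 2 : ℝ)
      norm_num at this ⊢
      exact this
    calc |∑' k : ℕ, (C (k + 1) : ℝ) * (1 / (b : ℝ)) ^ (k + 1)|
        ≤ ∑' k : ℕ, ‖(C (k + 1) : ℝ) * (1 / (b : ℝ)) ^ (k + 1)‖ := norm_tsum_le_tsum_norm hs2
      _ ≤ ∑' k : ℕ, (B : ℝ) * ((1 / 2 : ℝ) ^ k * (1 / 2)) := by
          refine hs2.tsum_le_tsum (fun k => ?_) hg.summable
          rw [norm_mul, norm_pow, Real.norm_eq_abs, Real.norm_eq_abs, abs_of_nonneg hβ0, ← pow_succ]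
          have h1 : |(C (k + 1) : ℝ)| ≤ B := by
            have h2 : |(C (k + 1) : ℝ)| = ((C (k + 1)).natAbs : ℝ) := by
              rw [Nat.cast_natAbs]; push_cast; rfl
            rw [h2]
            exact_mod_cast hCB (k + 1)
          gcongr
      _ = B := by rw [hg.tsum_eq, mul_one]
  have hU : u.natAbs ≤ q * W := by
    have h1 : |(u : ℝ)| ≤ q * W := by
      have h2 : (u : ℝ) = q * (ξ - ∑' k : ℕ, (C k : ℝ) * (1 / (b : ℝ)) ^ k) := by
        rw [hsum]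
        field_simp
        ring
      rw [h2, abs_mul, abs_of_pos hq0']
      refine mul_le_mul_of_nonneg_left ?_ hq0'.le
      refine (abs_sub _ _).trans ?_
      rw [hW]
      push_cast
      linarith
    have h2 : |(u : ℝ)| = ((u.natAbs : ℕ) : ℝ) := by
      rw [Nat.cast_natAbs]; push_cast; rfl
    rw [h2] at h1
    exact_mod_cast h1
  have hmain := d.core (v : ℤ) (m * D) (A * 2 ^ D * W ^ D * v ^ D)
    (fun j hj => hvq.trans (Rc_dvd P u q j hj))
    (fun i => Rc_zero P u q b v hvq hvb hvu hP i)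
    (fun j _ _ => by
      have := Rc_bound P u q W j (by omega) hU
      refine this.trans (le_of_eq ?_)
      rw [← hDdef, ← hA, hq, mul_pow, ← pow_mul]
      show _ = A * 2 ^ D * W ^ D * v ^ D * b ^ (m * D)
      ring)
    (Nat.succ_pos B) N
  have hM : d.M N = ((Icc 1 N).filter fun k => C k ≠ 0).card := rfl
  rw [hM] at hmain
  set M := ((Icc 1 N).filter fun k => C k ≠ 0).card with hMdef
  have hMD : 1 ≤ (M + 1) ^ D := Nat.one_le_pow _ _ (Nat.succ_pos _)
  have hdD : d.D = D := rfl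
  have hdB : d.B = B + 1 := rfl
  rw [hdD, hdB] at hmain
  set X := A * 2 ^ D * W ^ D * (B + 1) ^ D with hX
  set Y := (M + 1) ^ D with hY
  have e1 : 2 * D * (A * 2 ^ D * W ^ D * v ^ D) * (B + 1) ^ D * Y = 2 * D * X * v ^ D * Y := by
    rw [hX]; ring
  rw [e1] at hmain
  have e2 : m * D ≤ m * D * Y := Nat.le_mul_of_pos_right _ hMD
  have e3 : 2 * D * (1 + X) * (m + v ^ D) * Y = 2 * (m * D * Y) + 2 * D * X * v ^ D * Y +
      2 * D * (X * m + v ^ D) * Y := by ring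
  rw [e3]
  omega

end Pool.Agent.TH805.DR
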