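import Pool.Agent.TH805.DR.Final

set_option autoImplicit false

namespace Pool.Agent.TH805.DR

open Finset Polynomial Filter Topology

lemma exists_split (b : ℕ) (n : ℕ) (hn : 1 ≤ n) :
    ∃ v w m : ℕ, n = v * w ∧ w ∣ b ^ m ∧ Nat.Coprime v b := by
  induction n using Nat.strong_induction_on with
  | _ n ih =>
    by_cases hc : Nat.Coprime n b
    · exact ⟨n, 1, 0, by simp, by simp, hc⟩
    · obtain ⟨n', hn'⟩ := Nat.gcd_dvd_left n b
      have hg : 2 ≤ Nat.gcd n b := by
        have h1 : Nat.gcd n b ≠ 1 := hc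
        have h2 : 0 < Nat.gcd n b := Nat.gcd_pos_of_pos_left _ hn
        omega
      have hn'pos : 1 ≤ n' := by
        rcases Nat.eq_zero_or_pos n' with h | h
        · rw [h, mul_zero] at hn'; omega
        · exact h
      obtain ⟨v, w, m, h1, h2, h3⟩ := ih n' (by nlinarith) hn'pos
      refine ⟨v, Nat.gcd n b * w, m + 1, ?_, ?_, h3⟩
      · conv_lhs => rw [hn', h1]
        ring
      · rw [pow_succ, mul_comm (b ^ m)]
        exact Nat.mul_dvd_mul (Nat.gcd_dvd_right n b) h2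

/-- the distance from rational numbers with a denominator which does not divide a power of `b` -/
theorem main_rat (P : ℤ[X]) (ξ : ℝ) (hξ : aeval ξ P = 0) (b : ℕ) (hb : 2 ≤ b) (η : ℚ)
    (hη : ∀ s : ℕ, ¬ (η.den : ℤ) ∣ P.leadingCoeff * (b : ℤ) ^ s) :
    ∃ K : ℕ, ∀ N : ℕ, N ≤ K * (hdist (digit b ξ) (digit b (η : ℝ)) N + 1) ^ P.natDegree := by
  obtain ⟨K, hK⟩ := main_one P ξ hξ b hb b
  obtain ⟨v, w, m, h1, ⟨t, ht⟩, h3⟩ := exists_split b η.den η.den_pos
  have hv : 1 ≤ v := by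
    rcases Nat.eq_zero_or_pos v with h | h
    · rw [h, zero_mul] at h1
      exact absurd h1 η.den_nz
    · exact h
  have hw : 1 ≤ w := by
    rcases Nat.eq_zero_or_pos w with h | h
    · rw [h, mul_zero] at h1
      exact absurd h1 η.den_nz
    · exact h
  have hvb : IsCoprime (v : ℤ) b := Nat.isCoprime_iff_coprime.2 h3
  have hvt : IsCoprime (v : ℤ) t := by
    have : IsCoprime (v : ℤ) ((b : ℤ) ^ m) := hvb.pow_right
    refine IsCoprime.of_isCoprime_of_dvd_right this ?_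
    exact ⟨w, by rw [mul_comm]; exact_mod_cast ht⟩
  have hvn : IsCoprime (v : ℤ) η.num := by
    have h4 : IsCoprime (η.den : ℤ) η.num := by
      rw [Int.isCoprime_iff_gcd_eq_one, Int.gcd_comm]
      exact η.reduced
    refine IsCoprime.of_isCoprime_of_dvd_left h4 ?_
    rw [h1]; push_cast; exact Dvd.intro _ rfl
  have hval : (η : ℝ) = ((η.num * t : ℤ) : ℝ) / ((v : ℝ) * (b : ℝ) ^ m) := by
    have h5 : ((b : ℝ) ^ m) = w * t := by exact_mod_cast ht
    have h6 : (η : ℝ) = (η.num : ℝ) / (η.den : ℝ) := by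
      exact_mod_cast (Rat.num_div_den η).symm
    have h7 : (η.den : ℝ) = v * w := by exact_mod_cast h1
    have hw0 : (w : ℝ) ≠ 0 := by positivity
    have hv0 : (v : ℝ) ≠ 0 := by positivity
    have ht0 : (t : ℝ) ≠ 0 := by
      intro h0
      rw [h0, mul_zero] at h5
      have : (0 : ℝ) < (b : ℝ) ^ m := by positivity
      linarith
    rw [h6, h5, h7]
    push_cast
    field_simp
  have hlead : ¬ (v : ℤ) ∣ P.leadingCoeff := by
    intro h0
    apply hη m
    rw [h1]
    push_cast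
    refine mul_dvd_mul h0 ?_
    exact ⟨t, by exact_mod_cast ht⟩
  refine ⟨K * (m + v ^ P.natDegree), fun N => ?_⟩
  have hb1 : ∀ y k, |digit b y k| ≤ (b : ℤ) := fun y k => by
    rw [abs_of_nonneg (digit_nonneg b hb y k)]
    exact (digit_lt b hb y k).le
  refine hK m v (η.num * t) hv hvb (hvn.mul_right hvt) hlead (digit b ξ) (digit b (η : ℝ))
    (hb1 ξ) (hb1 _) (digit_expands b hb ξ) ?_ N
  have h8 := digit_expands b hb (η : ℝ)
  rw [hval] at h8 ⊢
  exact h8

/-- terminating expansions -/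
lemma digit_terminating (b : ℕ) (hb : 2 ≤ b) (η : ℚ) (s : ℕ) (hs : η.den ∣ b ^ s) (k : ℕ)
    (hk : s < k) : digit b (η : ℝ) k = 0 := by
  obtain ⟨t, ht⟩ := hs
  have h6 : (η : ℝ) = (η.num : ℝ) / (η.den : ℝ) := by
    exact_mod_cast (Rat.num_div_den η).symm
  have hd : (η.den : ℝ) ≠ 0 := by exact_mod_cast η.den_nz
  have h5 : ((b : ℝ) ^ s) = η.den * t := by exact_mod_cast ht
  have h7 : (η : ℝ) * (b : ℝ) ^ k = ((η.num * t * (b : ℤ) ^ (k - s) : ℤ) : ℝ) := by
    have h8 : (b : ℝ) ^ k = (b : ℝ) ^ s * (b : ℝ) ^ (k - s) := by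
      rw [← pow_add]; congr 1; omega
    rw [h8, h5, h6]
    push_cast
    field_simp
  unfold digit
  rw [h7, Int.floor_intCast]
  have h9 : (b : ℤ) ∣ η.num * t * (b : ℤ) ^ (k - s) :=
    Dvd.dvd.mul_left (dvd_pow_self _ (by omega)) _
  exact Int.emod_eq_zero_of_dvd h9

/-- the distance from the rational numbers -/
theorem main_two (P : ℤ[X]) (hD : 2 ≤ P.natDegree) (ξ : ℝ) (hirr : Irrational ξ)
    (hξ : aeval ξ P = 0) (b : ℕ) (hb : 2 ≤ b) (η : ℚ)
    (hη : (∃ s : ℕ, η.den ∣ b ^ s) ∨ ∀ s : ℕ, ¬ (η.den : ℤ) ∣ P.leadingCoeff * (b : ℤ) ^ s) :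
    ∃ c : ℝ, 0 < c ∧ ∃ N₀ : ℕ, ∀ N : ℕ, N₀ ≤ N →
      c * N ≤ (hdist (digit b ξ) (digit b (η : ℝ)) N : ℝ) ^ P.natDegree := by
  set D := P.natDegree with hDdef
  rcases hη with ⟨s, hs⟩ | hη
  · -- terminating
    have hP0 : P ≠ 0 := by rintro rfl; simp [hDdef] at hD
    have hl0 : P.leadingCoeff ≠ 0 := leadingCoeff_ne_zero.mpr hP0
    set a : ℝ := |(P.leadingCoeff : ℝ)| with ha
    have ha1 : 0 < a := abs_pos.mpr (by exact_mod_cast hl0)
    have hb2 : (2 : ℝ) ≤ b := by exact_mod_cast hb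
    set c1 : ℝ := ((b : ℝ) - 1) / (2 * a) with hc1
    have hc1pos : 0 < c1 := by
      have : 0 < (b : ℝ) - 1 := by linarith
      positivity
    obtain ⟨n0, hn0⟩ := Pool.Agent.H820R3.DG.deg_gcd hb P hD hirr hξ 1 0 (one_dvd _)
      (by simp) c1 hc1pos
    have hS : ∀ n : ℕ, n0 ≤ n → c1 * n ≤
        ((∑ k ∈ Icc 1 n, digit b ξ k : ℤ) : ℝ) ^ D := by
      intro n hn
      have h1 := (hn0 n hn).1
      have h2 : ((b : ℝ) - 1) * ((1 : ℕ) : ℝ) / |(P.leadingCoeff : ℝ)| - c1 = c1 := by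
        rw [hc1, ← ha]
        push_cast
        field_simp
        ring
      rw [h2] at h1
      exact h1
    -- the number of nonzero digits
    set Z : ℕ → ℕ := fun n => ((Icc 1 n).filter fun k => digit b ξ k ≠ 0).card with hZ
    have hSZ : ∀ n, ((∑ k ∈ Icc 1 n, digit b ξ k : ℤ) : ℝ) ≤ b * Z n := by
      intro n
      have h1 : (∑ k ∈ Icc 1 n, digit b ξ k : ℤ) ≤ (b : ℤ) * Z n := by
        calc (∑ k ∈ Icc 1 n, digit b ξ k : ℤ)
            = ∑ k ∈ (Icc 1 n).filter (fun k => digit b ξ k ≠ 0), digit b ξ k := by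
              rw [sum_filter_ne_zero]
          _ ≤ ∑ k ∈ (Icc 1 n).filter (fun k => digit b ξ k ≠ 0), (b : ℤ) :=
              sum_le_sum fun k _ => (digit_lt b hb ξ k).le
          _ = _ := by rw [sum_const, nsmul_eq_mul, mul_comm]
      exact_mod_cast h1
    have hdZ : ∀ n, Z n ≤ hdist (digit b ξ) (digit b (η : ℝ)) n + s := by
      intro n
      have hsub : (Icc 1 n).filter (fun k => digit b ξ k ≠ 0) ⊆
          ((Icc 1 n).filter fun k => digit b ξ k ≠ digit b (η : ℝ) k) ∪ Icc 1 s := by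
        intro k hk
        rw [mem_filter, mem_Icc] at hk
        rw [mem_union, mem_filter, mem_Icc, mem_Icc]
        by_cases hks : k ≤ s
        · exact Or.inr ⟨hk.1.1, hks⟩
        · left
          refine ⟨hk.1, ?_⟩
          rw [digit_terminating b hb η s hs k (by omega)]
          exact hk.2
      refine (card_le_card hsub).trans ((card_union_le _ _).trans ?_)
      rw [Nat.card_Icc]
      unfold hdist
      omega
    -- combine
    obtain ⟨n1, hn1⟩ := exists_nat_ge ((2 * (b : ℝ) * (s + 1)) ^ D / c1)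
    refine ⟨c1 / (2 * (b : ℝ)) ^ D, by positivity, max n0 n1, fun N hN => ?_⟩
    have h1 := hS N ((le_max_left _ _).trans hN)
    have hS0 : (0 : ℝ) ≤ ((∑ k ∈ Icc 1 N, digit b ξ k : ℤ) : ℝ) := by
      have : (0 : ℤ) ≤ ∑ k ∈ Icc 1 N, digit b ξ k := sum_nonneg fun k _ => digit_nonneg b hb ξ k
      exact_mod_cast this
    have h2 : c1 * N ≤ ((b : ℝ) * Z N) ^ D :=
      h1.trans (pow_le_pow_left₀ hS0 (hSZ N) _)
    have h3 : (2 * (b : ℝ) * (s + 1)) ^ D ≤ c1 * N := by
      have h4 : (n1 : ℝ) ≤ N := by exact_mod_cast (le_max_right _ _).trans hN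
      have h5 := hn1.trans h4
      rw [div_le_iff₀ hc1pos] at h5
      linarith
    have hZs : 2 * ((s : ℝ) + 1) ≤ Z N := by
      have h6 := h3.trans h2
      have h7 := le_of_pow_le_pow_left₀ (by omega : D ≠ 0) (by positivity) h6
      have h8 : (b : ℝ) * (2 * (s + 1)) ≤ b * Z N := by linarith
      exact le_of_mul_le_mul_left h8 (by linarith)
    have hd : (Z N : ℝ) ≤ 2 * (hdist (digit b ξ) (digit b (η : ℝ)) N : ℝ) := by
      have h9 : (Z N : ℝ) ≤ (hdist (digit b ξ) (digit b (η : ℝ)) N : ℝ) + s := by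
        exact_mod_cast hdZ N
      linarith
    have h10 : c1 * N ≤ (2 * (b : ℝ)) ^ D *
        (hdist (digit b ξ) (digit b (η : ℝ)) N : ℝ) ^ D := by
      refine h2.trans ?_
      rw [← mul_pow]
      refine pow_le_pow_left₀ (by positivity) ?_ _
      nlinarith
    rw [div_mul_eq_mul_div, div_le_iff₀ (by positivity)]
    linarith
  · obtain ⟨K, hK⟩ := main_rat P ξ hξ b hb η hη
    refine ⟨1 / ((K + 1 : ℝ) * 2 ^ D), by positivity, K + 1, fun N hN => ?_⟩
    have h1 := hK N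
    set d := hdist (digit b ξ) (digit b (η : ℝ)) N with hd
    have hd1 : 1 ≤ d := by
      by_contra hcon
      have : d = 0 := by omega
      rw [this] at h1
      simp at h1
      omega
    have h2 : N ≤ (K + 1) * (2 ^ D * d ^ D) := by
      calc N ≤ K * (d + 1) ^ D := h1
        _ ≤ (K + 1) * (2 * d) ^ D := by
            gcongr
            · omega
            · omega
        _ = _ := by rw [mul_pow]
    have h3 : (N : ℝ) ≤ ((K : ℝ) + 1) * (2 ^ D * (d : ℝ) ^ D) := by exact_mod_cast h2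
    rw [one_div, inv_mul_le_iff₀ (by positivity)]
    linarith

end Pool.Agent.TH805.DR
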