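import Pool.Agent.TH805.DR.Cauchy

set_option autoImplicit false

namespace Pool.Agent.TH805.DR

open Finset
open scoped ENNReal

/-- the data: a base `b`, bounded integers `C m` and an integer polynomial `∑ R j X^j`, of degree at
most `D`, vanishing at `y = ∑ C m b^(-m)`. -/
structure Dat where
  b : ℕ
  hb : 2 ≤ b
  B : ℕ
  C : ℕ → ℤ
  C0 : C 0 = 0
  CB : ∀ m, (C m).natAbs ≤ B
  D : ℕ
  R : ℕ → ℤ
  root : ∑ j ∈ range (D + 1), (R j : ℝ) * (∑' m : ℕ, (C m : ℝ) * (1 / (b : ℝ)) ^ m) ^ j = 0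

namespace Dat

variable (d : Dat)

/-- the inverse of the base -/
noncomputable def β : ℝ := 1 / (d.b : ℝ)

/-- the power series -/
noncomputable def F : PowerSeries ℤ := PowerSeries.mk d.C

/-- the coefficients of `∑_{j ≥ 1} R j F^j` -/
noncomputable def t (m : ℕ) : ℤ := ∑ j ∈ Icc 1 d.D, d.R j * PowerSeries.coeff m (d.F ^ j)

/-- the tail -/
noncomputable def T (n : ℕ) : ℝ := ∑' i : ℕ, (d.t (n + 1 + i) : ℝ) * d.β ^ (i + 1)

lemma b_pos : (0 : ℝ) < d.b := by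
  have := d.hb
  exact_mod_cast (by omega : 0 < d.b)

lemma β_pos : 0 < d.β := by
  unfold β; exact one_div_pos.2 d.b_pos

lemma β_le : d.β ≤ 1 / 2 := by
  unfold β
  have : (2 : ℝ) ≤ d.b := by exact_mod_cast d.hb
  exact one_div_le_one_div_of_le (by norm_num) this

lemma bβ : (d.b : ℝ) * d.β = 1 := by
  unfold β
  field_simp [d.b_pos.ne']

lemma coeff_F (m : ℕ) : PowerSeries.coeff m d.F = d.C m := by
  unfold F; rw [PowerSeries.coeff_mk]

lemma abs_C (m : ℕ) : |(d.C m : ℝ)| ≤ d.B := by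
  have := d.CB m
  have h : |(d.C m : ℝ)| = ((d.C m).natAbs : ℝ) := by
    rw [Nat.cast_natAbs]; push_cast; rfl
  rw [h]
  exact_mod_cast this

lemma summable_F : Summable fun m : ℕ => ‖((PowerSeries.coeff m d.F : ℤ) : ℝ) * d.β ^ m‖ := by
  have hg : Summable fun m : ℕ => (d.B : ℝ) * d.β ^ m :=
    (summable_geometric_of_lt_one d.β_pos.le (lt_of_le_of_lt d.β_le (by norm_num))).mul_left _
  refine Summable.of_nonneg_of_le (fun m => norm_nonneg _) (fun m => ?_) hg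
  rw [norm_mul, Real.norm_eq_abs, coeff_F, Real.norm_eq_abs, abs_of_nonneg (pow_nonneg d.β_pos.le m)]
  exact mul_le_mul_of_nonneg_right (d.abs_C m) (pow_nonneg d.β_pos.le m)

lemma summable_t : Summable fun m : ℕ => (d.t m : ℝ) * d.β ^ m := by
  have h : (fun m : ℕ => (d.t m : ℝ) * d.β ^ m) = fun m : ℕ => ∑ j ∈ Icc 1 d.D,
      (d.R j : ℝ) * (((PowerSeries.coeff m (d.F ^ j) : ℤ) : ℝ) * d.β ^ m) := by
    funext m
    unfold t
    push_cast
    rw [sum_mul]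
    exact sum_congr rfl fun j _ => by ring
  rw [h]
  refine summable_sum fun j _ => ?_
  exact (pow_series d.β d.F d.summable_F j).1.of_norm.mul_left _

lemma tsum_t : ∑' m : ℕ, (d.t m : ℝ) * d.β ^ m = - (d.R 0 : ℝ) := by
  have h : (fun m : ℕ => (d.t m : ℝ) * d.β ^ m) = fun m : ℕ => ∑ j ∈ Icc 1 d.D,
      (d.R j : ℝ) * (((PowerSeries.coeff m (d.F ^ j) : ℤ) : ℝ) * d.β ^ m) := by
    funext m
    unfold t
    push_cast
    rw [sum_mul]
    exact sum_congr rfl fun j _ => by ring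
  rw [h, Summable.tsum_finsetSum
    (fun j _ => (pow_series d.β d.F d.summable_F j).1.of_norm.mul_left _)]
  have h2 : ∀ j ∈ Icc 1 d.D, ∑' m : ℕ, (d.R j : ℝ) *
      (((PowerSeries.coeff m (d.F ^ j) : ℤ) : ℝ) * d.β ^ m) =
      (d.R j : ℝ) * (∑' m : ℕ, (d.C m : ℝ) * (1 / (d.b : ℝ)) ^ m) ^ j := by
    intro j _
    rw [tsum_mul_left, (pow_series d.β d.F d.summable_F j).2]
    congr 2
    refine tsum_congr fun m => ?_
    rw [coeff_F]
    rfl
  rw [sum_congr rfl h2]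
  have h3 := d.root
  have h4 : range (d.D + 1) = insert 0 (Icc 1 d.D) := by
    ext x
    simp only [mem_range, mem_insert, mem_Icc]
    omega
  rw [h4, sum_insert (by simp)] at h3
  rw [pow_zero, mul_one] at h3
  linarith

lemma T_eq (n : ℕ) : d.T n =
    ((-((d.b : ℤ) ^ n * d.R 0 + ∑ m ∈ range (n + 1), d.t m * (d.b : ℤ) ^ (n - m)) : ℤ) : ℝ) := by
  have h1 := d.summable_t.sum_add_tsum_nat_add (n + 1)
  rw [d.tsum_t] at h1
  have h2 : (d.b : ℝ) ^ n * ∑' i : ℕ, (d.t (i + (n + 1)) : ℝ) * d.β ^ (i + (n + 1)) = d.T n := by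
    unfold T
    rw [← tsum_mul_left]
    refine tsum_congr fun i => ?_
    have : d.β ^ (i + (n + 1)) = d.β ^ n * d.β ^ (i + 1) := by
      rw [← pow_add]; congr 1; ring
    rw [this, show n + 1 + i = i + (n + 1) by ring]
    have hbn : (d.b : ℝ) ^ n * d.β ^ n = 1 := by rw [← mul_pow, d.bβ, one_pow]
    calc (d.b : ℝ) ^ n * ((d.t (i + (n + 1)) : ℝ) * (d.β ^ n * d.β ^ (i + 1)))
        = ((d.b : ℝ) ^ n * d.β ^ n) * ((d.t (i + (n + 1)) : ℝ) * d.β ^ (i + 1)) := by ring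
      _ = _ := by rw [hbn, one_mul]
  have h3 : (d.b : ℝ) ^ n * ∑ m ∈ range (n + 1), (d.t m : ℝ) * d.β ^ m =
      ∑ m ∈ range (n + 1), (d.t m : ℝ) * (d.b : ℝ) ^ (n - m) := by
    rw [mul_sum]
    refine sum_congr rfl fun m hm => ?_
    have hm' : m ≤ n := by rw [mem_range] at hm; omega
    have hbn : (d.b : ℝ) ^ m * d.β ^ m = 1 := by rw [← mul_pow, d.bβ, one_pow]
    have : (d.b : ℝ) ^ n = (d.b : ℝ) ^ (n - m) * (d.b : ℝ) ^ m := by
      rw [← pow_add]; congr 1; omega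
    rw [this]
    calc (d.b : ℝ) ^ (n - m) * (d.b : ℝ) ^ m * ((d.t m : ℝ) * d.β ^ m)
        = ((d.b : ℝ) ^ m * d.β ^ m) * ((d.t m : ℝ) * (d.b : ℝ) ^ (n - m)) := by ring
      _ = _ := by rw [hbn, one_mul]
  have h4 : (d.b : ℝ) ^ n * (∑ m ∈ range (n + 1), (d.t m : ℝ) * d.β ^ m +
      ∑' i : ℕ, (d.t (i + (n + 1)) : ℝ) * d.β ^ (i + (n + 1))) = (d.b : ℝ) ^ n * (-(d.R 0 : ℝ)) := by
    rw [h1]
  rw [mul_add, h2, h3] at h4
  push_cast
  linarith

/-- at a good place the tail is large -/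
lemma T_large (v : ℤ) (μ : ℕ) (hR : ∀ j, 1 ≤ j → v ∣ d.R j)
    (hR0 : ∀ i : ℕ, ¬ v ∣ (d.b : ℤ) ^ i * d.R 0) (n : ℕ) (hn : μ ≤ n)
    (hgood : ∀ m, n < m + μ → m ≤ n → d.t m = 0) : (d.b : ℝ) ^ μ ≤ |d.T n| := by
  have hz : ∑ m ∈ range (n + 1), d.t m * (d.b : ℤ) ^ (n - m) =
      (d.b : ℤ) ^ μ * ∑ m ∈ range (n - μ + 1), d.t m * (d.b : ℤ) ^ (n - μ - m) := by
    rw [mul_sum]
    have hsub : range (n - μ + 1) ⊆ range (n + 1) := range_subset_range.2 (by omega)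
    rw [← sum_subset hsub]
    · refine sum_congr rfl fun m hm => ?_
      rw [mem_range] at hm
      have : n - m = μ + (n - μ - m) := by omega
      rw [this, pow_add]
      ring
    · intro m hm1 hm2
      rw [mem_range] at hm1 hm2
      rw [hgood m (by omega) (by omega), zero_mul]
  set Z : ℤ := (d.b : ℤ) ^ (n - μ) * d.R 0 +
    ∑ m ∈ range (n - μ + 1), d.t m * (d.b : ℤ) ^ (n - μ - m) with hZ
  have hT : d.T n = -(((d.b : ℤ) ^ μ * Z : ℤ) : ℝ) := by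
    rw [d.T_eq n, hz]
    have : (d.b : ℤ) ^ n = (d.b : ℤ) ^ μ * (d.b : ℤ) ^ (n - μ) := by
      rw [← pow_add]; congr 1; omega
    rw [this, hZ, ← Int.cast_neg]
    congr 1
    ring
  have ht : ∀ m, v ∣ d.t m := by
    intro m
    unfold t
    refine dvd_sum fun j hj => ?_
    rw [mem_Icc] at hj
    exact (hR j hj.1).mul_right _
  have hZ0 : Z ≠ 0 := by
    intro h0
    apply hR0 (n - μ)
    have h1 : v ∣ ∑ m ∈ range (n - μ + 1), d.t m * (d.b : ℤ) ^ (n - μ - m) :=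
      dvd_sum fun m _ => (ht m).mul_right _
    have h2 : (d.b : ℤ) ^ (n - μ) * d.R 0 =
      -∑ m ∈ range (n - μ + 1), d.t m * (d.b : ℤ) ^ (n - μ - m) := by
      rw [hZ] at h0; linarith
    rw [h2]
    exact h1.neg_right
  have hZ1 : (1 : ℝ) ≤ |(Z : ℝ)| := by
    rw [← Int.cast_abs]
    exact_mod_cast Int.one_le_abs hZ0
  rw [hT, abs_neg, Int.cast_mul, abs_mul]
  push_cast
  rw [abs_of_nonneg (pow_nonneg d.b_pos.le μ)]
  exact le_mul_of_one_le_right (pow_nonneg d.b_pos.le μ) hZ1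

end Dat

end Pool.Agent.TH805.DR
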