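import Pool.Agent.TH805.DR.Tail

set_option autoImplicit false

namespace Pool.Agent.TH805.DR

open Finset
open scoped ENNReal

lemma enorm_int (z : ℤ) : ‖(z : ℝ)‖ₑ = (z.natAbs : ℝ≥0∞) := by
  rw [← ofReal_norm, Real.norm_eq_abs]
  have h : |(z : ℝ)| = ((z.natAbs : ℕ) : ℝ) := by
    rw [Nat.cast_natAbs]; push_cast; rfl
  rw [h, ENNReal.ofReal_natCast]

/-- a geometric sum -/
lemma geo (x : ℝ≥0∞) (hx : 2 * x ≤ 1) (m : ℕ) : ∀ N : ℕ,
    ∑ n ∈ range (N + 1), (if n < m then x ^ (m - n) else 0) ≤ 2 * x ^ (m - N) := by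
  have hx1 : x ≤ 1 := le_trans (by
    calc x = 1 * x := (one_mul x).symm
      _ ≤ 2 * x := mul_le_mul_left (by norm_num) x) hx
  intro N
  induction N with
  | zero =>
    rw [zero_add, sum_range_one]
    split_ifs
    · calc x ^ (m - 0) = 1 * x ^ (m - 0) := (one_mul _).symm
        _ ≤ 2 * x ^ (m - 0) := mul_le_mul_left (by norm_num) _
    · exact zero_le
  | succ N ih =>
    rw [sum_range_succ]
    by_cases h : N + 1 < m
    · rw [if_pos h]
      have h1 : m - N = (m - (N + 1)) + 1 := by omega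
      have h2 : 2 * x ^ (m - N) ≤ x ^ (m - (N + 1)) := by
        rw [h1, pow_succ]
        calc 2 * (x ^ (m - (N + 1)) * x) = x ^ (m - (N + 1)) * (2 * x) := by ring
          _ ≤ x ^ (m - (N + 1)) * 1 := mul_le_mul_right hx _
          _ = _ := mul_one _
      calc _ ≤ 2 * x ^ (m - N) + x ^ (m - (N + 1)) := by gcongr
        _ ≤ x ^ (m - (N + 1)) + x ^ (m - (N + 1)) := by gcongr
        _ = _ := by ring
    · rw [if_neg h, add_zero]
      refine ih.trans ?_
      have h1 : m - (N + 1) = 0 := by omega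
      rw [h1, pow_zero]
      exact mul_le_mul_right (pow_le_one' hx1 _) _

namespace Dat

variable (d : Dat)

/-- the weights -/
noncomputable def w (N m : ℕ) : ℝ≥0∞ := (ENNReal.ofReal d.β) ^ (m - N)

lemma bE_two : 2 * ENNReal.ofReal d.β ≤ 1 := by
  have h : ENNReal.ofReal d.β ≤ ENNReal.ofReal (1 / 2) := ENNReal.ofReal_le_ofReal d.β_le
  calc 2 * ENNReal.ofReal d.β ≤ ENNReal.ofReal 2 * ENNReal.ofReal (1 / 2) := by
        rw [ENNReal.ofReal_ofNat]; exact mul_le_mul_right h 2
    _ = 1 := by rw [← ENNReal.ofReal_mul (by norm_num)]; norm_num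

lemma bE_one : ENNReal.ofReal d.β ≤ 1 := by
  rw [← ENNReal.ofReal_one]
  exact ENNReal.ofReal_le_ofReal (d.β_le.trans (by norm_num))

lemma bE_half : ENNReal.ofReal d.β ≤ 2⁻¹ := by
  have h : ENNReal.ofReal d.β ≤ ENNReal.ofReal (1 / 2) := ENNReal.ofReal_le_ofReal d.β_le
  refine h.trans (le_of_eq ?_)
  rw [one_div, ENNReal.ofReal_inv_of_pos (by norm_num), ENNReal.ofReal_ofNat]

lemma subW (N : ℕ) : SubW (d.w N) := by
  constructor
  · unfold w
    simp
  · intro k l
    unfold w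
    rw [← pow_add]
    exact pow_le_pow_right_of_le_one' d.bE_one (by omega)

lemma T_le (n : ℕ) : ‖d.T n‖ₑ ≤
    ∑' m : ℕ, ((d.t m).natAbs : ℝ≥0∞) * (if n < m then (ENNReal.ofReal d.β) ^ (m - n) else 0) := by
  have h1 : ∑' m : ℕ, ((d.t m).natAbs : ℝ≥0∞) *
      (if n < m then (ENNReal.ofReal d.β) ^ (m - n) else 0) =
      ∑' i : ℕ, ((d.t (n + 1 + i)).natAbs : ℝ≥0∞) * (ENNReal.ofReal d.β) ^ (i + 1) := by
    have hinj : Function.Injective (fun i : ℕ => n + 1 + i) := fun a b h => by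
      simpa using h
    rw [← hinj.tsum_eq]
    · refine tsum_congr fun i => ?_
      rw [if_pos (by omega)]
      congr 2
      omega
    · intro m hm
      rw [Function.mem_support] at hm
      by_cases h : n < m
      · exact ⟨m - (n + 1), by simp only []; omega⟩
      · rw [if_neg h, mul_zero] at hm
        exact absurd rfl hm
  rw [h1]
  unfold T
  refine enorm_tsum_le_tsum_enorm.trans (le_of_eq (tsum_congr fun i => ?_))
  rw [enorm_mul, enorm_int, enorm_pow]
  congr 2
  rw [← ofReal_norm, Real.norm_eq_abs, abs_of_pos d.β_pos]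

lemma sum_T_le (N : ℕ) : ∑ n ∈ range (N + 1), ‖d.T n‖ₑ ≤
    2 * ∑ j ∈ Icc 1 d.D, ((d.R j).natAbs : ℝ≥0∞) * (asum (d.w N) d.F) ^ j := by
  calc ∑ n ∈ range (N + 1), ‖d.T n‖ₑ
      ≤ ∑ n ∈ range (N + 1), ∑' m : ℕ, ((d.t m).natAbs : ℝ≥0∞) *
        (if n < m then (ENNReal.ofReal d.β) ^ (m - n) else 0) := sum_le_sum fun n _ => d.T_le n
    _ = ∑' m : ℕ, ∑ n ∈ range (N + 1), ((d.t m).natAbs : ℝ≥0∞) *
        (if n < m then (ENNReal.ofReal d.β) ^ (m - n) else 0) :=
        (Summable.tsum_finsetSum fun n _ => ENNReal.summable).symm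
    _ ≤ ∑' m : ℕ, ((d.t m).natAbs : ℝ≥0∞) * (2 * d.w N m) := by
        refine ENNReal.tsum_le_tsum fun m => ?_
        rw [← mul_sum]
        exact mul_le_mul_right (geo _ d.bE_two m N) _
    _ ≤ ∑' m : ℕ, ∑ j ∈ Icc 1 d.D, (2 * ((d.R j).natAbs : ℝ≥0∞)) *
          (((PowerSeries.coeff m (d.F ^ j)).natAbs : ℝ≥0∞) * d.w N m) := by
        refine ENNReal.tsum_le_tsum fun m => ?_
        have h1 : ((d.t m).natAbs : ℝ≥0∞) ≤ ∑ j ∈ Icc 1 d.D, ((d.R j).natAbs : ℝ≥0∞) *
            ((PowerSeries.coeff m (d.F ^ j)).natAbs : ℝ≥0∞) := by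
          unfold t
          have := Int.natAbs_sum_le (Icc 1 d.D)
            (fun j => d.R j * PowerSeries.coeff m (d.F ^ j))
          calc (((∑ j ∈ Icc 1 d.D, d.R j * PowerSeries.coeff m (d.F ^ j)).natAbs : ℕ) : ℝ≥0∞)
              ≤ ((∑ j ∈ Icc 1 d.D, (d.R j * PowerSeries.coeff m (d.F ^ j)).natAbs : ℕ) : ℝ≥0∞) := by
                exact_mod_cast this
            _ = _ := by
                push_cast
                refine sum_congr rfl fun j _ => ?_
                rw [Int.natAbs_mul]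
                push_cast
                rfl
        calc _ ≤ (∑ j ∈ Icc 1 d.D, ((d.R j).natAbs : ℝ≥0∞) *
            ((PowerSeries.coeff m (d.F ^ j)).natAbs : ℝ≥0∞)) * (2 * d.w N m) :=
              mul_le_mul_left h1 _
          _ = _ := by
              rw [sum_mul]
              refine sum_congr rfl fun j _ => by ring
    _ = ∑ j ∈ Icc 1 d.D, (2 * ((d.R j).natAbs : ℝ≥0∞)) * asum (d.w N) (d.F ^ j) := by
        rw [Summable.tsum_finsetSum fun n _ => ENNReal.summable]
        refine sum_congr rfl fun j _ => ?_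
        rw [ENNReal.tsum_mul_left]
        rfl
    _ ≤ _ := by
        rw [mul_sum]
        refine sum_le_sum fun j _ => ?_
        rw [mul_assoc]
        exact mul_le_mul_right (mul_le_mul_right (asum_pow _ (d.subW N) _ _) _) _

/-- the number of nonzero `C m`, `1 ≤ m ≤ N` -/
def M (N : ℕ) : ℕ := ((Icc 1 N).filter fun m => d.C m ≠ 0).card

lemma asum_F_le (N : ℕ) : asum (d.w N) d.F ≤ (d.B : ℝ≥0∞) * ((d.M N : ℝ≥0∞) + 1) := by
  unfold asum
  rw [← (ENNReal.summable (f := fun i => ((PowerSeries.coeff (i + (N + 1)) d.F).natAbs : ℝ≥0∞) *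
    d.w N (i + (N + 1)))).sum_add_tsum_nat_add' (f := fun m =>
      ((PowerSeries.coeff m d.F).natAbs : ℝ≥0∞) * d.w N m)]
  have h1 : ∑ m ∈ range (N + 1), ((PowerSeries.coeff m d.F).natAbs : ℝ≥0∞) * d.w N m ≤
      (d.B : ℝ≥0∞) * (d.M N : ℝ≥0∞) := by
    calc ∑ m ∈ range (N + 1), ((PowerSeries.coeff m d.F).natAbs : ℝ≥0∞) * d.w N m
        = ∑ m ∈ (Icc 1 N).filter (fun m => d.C m ≠ 0),
          ((PowerSeries.coeff m d.F).natAbs : ℝ≥0∞) * d.w N m := by
          symm
          refine sum_subset ?_ ?_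
          · intro m hm
            rw [mem_filter, mem_Icc] at hm
            rw [mem_range]; omega
          · intro m hm1 hm2
            rw [mem_range] at hm1
            rw [mem_filter, mem_Icc] at hm2
            have : d.C m = 0 := by
              by_contra hne
              apply hm2
              refine ⟨⟨?_, by omega⟩, hne⟩
              rcases Nat.eq_zero_or_pos m with h | h
              · subst h; exact absurd d.C0 hne
              · exact h
            rw [coeff_F, this]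
            simp
      _ ≤ ∑ m ∈ (Icc 1 N).filter (fun m => d.C m ≠ 0), (d.B : ℝ≥0∞) := by
          refine sum_le_sum fun m hm => ?_
          rw [mem_filter, mem_Icc] at hm
          have hw : d.w N m = 1 := by
            unfold w
            rw [show m - N = 0 by omega, pow_zero]
          rw [hw, mul_one, coeff_F]
          exact_mod_cast d.CB m
      _ = _ := by
          rw [sum_const, nsmul_eq_mul, mul_comm]
          rfl
  have h2 : ∑' i : ℕ, ((PowerSeries.coeff (i + (N + 1)) d.F).natAbs : ℝ≥0∞) *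
      d.w N (i + (N + 1)) ≤ (d.B : ℝ≥0∞) := by
    calc _ ≤ ∑' i : ℕ, (d.B : ℝ≥0∞) * (2⁻¹ : ℝ≥0∞) ^ (i + 1) := by
          refine ENNReal.tsum_le_tsum fun i => ?_
          have hw : d.w N (i + (N + 1)) ≤ (2⁻¹ : ℝ≥0∞) ^ (i + 1) := by
            unfold w
            rw [show i + (N + 1) - N = i + 1 by omega]
            exact pow_le_pow_left' d.bE_half _
          refine mul_le_mul' ?_ hw
          rw [coeff_F]
          exact_mod_cast d.CB _
      _ = (d.B : ℝ≥0∞) := by
          rw [ENNReal.tsum_mul_left]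
          have : ∑' i : ℕ, (2⁻¹ : ℝ≥0∞) ^ (i + 1) = 1 := by
            rw [ENNReal.tsum_geometric_add_one, ENNReal.one_sub_inv_two, inv_inv]
            exact ENNReal.inv_mul_cancel (by norm_num) (by norm_num)
          rw [this, mul_one]
  calc _ ≤ (d.B : ℝ≥0∞) * (d.M N : ℝ≥0∞) + (d.B : ℝ≥0∞) := add_le_add h1 h2
    _ = _ := by ring

end Dat

end Pool.Agent.TH805.DR
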